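import Pool.Agent.K6.H72.PD.Stm
import Pool.Agent.Y330.H.B8

/-!
# Extension of rectangles, lifts of rectangles to a cover
-/

set_option autoImplicit false

open Filter Topology Set Metric unitInterval

namespace Pool.Agent.K6.H72.PD

open Pool.Agent.N234.CP Pool.Agent.H789R2.AN Pool.Agent.H789R2.GP Pool.Agent.TH289.K
  Pool.Agent.H721R2 Pool.Agent.Y330.H Pool.Agent.TH289.L

universe u v

section

variable {X : Type u} [MetricSpace X] [CompactSpace X] {g : X ≃ₜ X} {c : ℝ}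

/-- rectangles with bounded unstable sides extend along a stable path -/
theorem extend' (hg : LP g c) {c₁ : ℝ} (hc₁ : 0 < c₁) (hs : Sl g c c₁) {K : ℕ}
    (v : C(I, SM g.symm)) (τ : C(I, SM g))
    (hv : ∀ (r : I) (T : I → I → X), Rc g T → (∀ s, T s 0 = (τ (r * s)).val) →
      (∀ t, T 0 t = (v t).val) →
      ∀ t, SR g.symm c₁ (g.symm^[K] (T 1 0)) (g.symm^[K] (T 1 t)))
    (h0 : (τ 0).val = (v 0).val) :
    ∃ T : I → I → X, Rc g T ∧ (∀ s, T s 0 = (τ s).val) ∧ ∀ t, T 0 t = (v t).val := by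
  obtain ⟨η, hη, hsl⟩ := hs 1 one_pos K
  have hu : UniformContinuous τ := CompactSpace.uniformContinuous_of_continuous τ.continuous
  rw [Metric.uniformContinuous_iff] at hu
  obtain ⟨δ, hδ, hτδ⟩ := hu η hη
  have hall : ∀ r : I, ∃ Γ : C(I, Pr g), (Γ 0).y = (τ r).val ∧ ∀ t, (Γ t).x = (v t).val := by
    refine interval_induct (S := fun r => ∃ Γ : C(I, Pr g), (Γ 0).y = (τ r).val ∧
      ∀ t, (Γ t).x = (v t).val) hδ ?_ ?_
    · obtain ⟨Γ, a1, a2⟩ := strip_const (g := g) v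
      exact ⟨Γ, by rw [a2, h0], a1⟩
    · intro r hr r' hrr
      let τ' : C(I, SM g) := ⟨fun s => τ (r * s), by fun_prop⟩
      obtain ⟨T, a1, a2, a3⟩ := rc_of_strips hg hc₁ hs τ' v
        (by
          show (τ (r * 0)).val = _
          rw [mul_zero, h0])
        (fun s => hr (r * s) unitInterval.mul_le_left)
      obtain ⟨v₃, hv₃⟩ := a1.pathU 1
      have e1 : T 1 0 = (τ r).val := by
        rw [a2]
        show (τ (r * 1)).val = _
        rw [mul_one]
      obtain ⟨Γ₃, c1, c2, -, -⟩ := hsl v₃ (τ r').val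
        (by
          rw [hv₃, e1]
          exact (SM.dist_le _ _ hη.le).mp (hτδ hrr).le)
        (fun t => by
          rw [hv₃, hv₃]
          exact hv r T a1 a2 a3 t)
      obtain ⟨Γ₄, d1, d2⟩ := a1.strip 0 1
      obtain ⟨Γ₅, f1, f2⟩ := strip_comp Γ₄ Γ₃ (fun s => by rw [c2, d2, hv₃])
      exact ⟨Γ₅, by rw [f2, c1], fun s => by rw [f1, d1, a3]⟩
  exact rc_of_strips hg hc₁ hs τ v h0 hall

/-- lifts of rectangles -/
theorem lift_rect {Y : Type v} [TopologicalSpace Y] {p : C(Y, X)} (hp : IsCoveringMap p)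
    (hsur : Function.Surjective p) {T : I → I → X} (hT : Rc g T) :
    ∃ F : C(I × I, Y), ∀ s t, p (F (s, t)) = T s t := by
  have hI : ContractibleSpace I :=
    Convex.contractibleSpace (convex_Icc (0 : ℝ) 1) ⟨0, by simp⟩
  have hII : ContractibleSpace (I × I) := inferInstance
  have hL : LocallyPathConnectedSpace I := (convex_Icc (0 : ℝ) 1).locallyPathConnectedSpace
  let f : C(I × I, X) := ⟨fun q => T q.1 q.2, hT.cont⟩
  obtain ⟨e₀, he⟩ := hsur (T 0 0)
  obtain ⟨F, ⟨-, hF⟩, -⟩ := hp.existsUnique_continuousMap_lifts f ((0 : I), (0 : I)) e₀ he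
  exact ⟨F, fun s t => congrFun hF (s, t)⟩

end

end Pool.Agent.K6.H72.PD
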