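import Pool.Agent.K6.H72.PD.A1

/-!
# The inequality between the sides of a rectangle
-/

set_option autoImplicit false

open Filter Topology Set Metric unitInterval

namespace Pool.Agent.K6.H72.PD

open Pool.Agent.N234.CP Pool.Agent.H789R2.AN Pool.Agent.H789R2.GP Pool.Agent.TH289.K
  Pool.Agent.H721R2 Pool.Agent.Y330.H Pool.Agent.TH289.L

universe u v

theorem NearIn.symm' {Y M : Type*} [TopologicalSpace Y] {p : Y → M} {𝒰 : Set (M × M)} {y y' : Y}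
    (h : NearIn p 𝒰 y y') : NearIn p 𝒰 y' y := by
  obtain ⟨d, h0, h1, h2⟩ := h
  refine ⟨⟨fun t => d (σ t), by fun_prop⟩, ?_, ?_, fun s t => h2 _ _⟩
  · show d (σ 0) = _
    rw [unitInterval.symm_zero, h1]
  · show d (σ 1) = _
    rw [unitInterval.symm_one, h0]

theorem CoverChain.symm' {Y M : Type*} [TopologicalSpace Y] {p : Y → M} {𝒰 : Set (M × M)} {N : ℕ}
    {y y' : Y} (h : CoverChain p 𝒰 N y y') : CoverChain p 𝒰 N y' y := by
  obtain ⟨z, h0, h1, h2⟩ := h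
  refine ⟨fun i => z (N - i), ?_, ?_, fun i hi => ?_⟩
  · simpa using h1
  · simpa using h0
  · have h3 := (h2 (N - (i + 1)) (by omega)).symm'
    rwa [show N - (i + 1) + 1 = N - i by omega] at h3

theorem CoverChain.trans' {Y M : Type*} [TopologicalSpace Y] {p : Y → M} {𝒰 : Set (M × M)}
    {N N' : ℕ} {y y' y'' : Y} (h : CoverChain p 𝒰 N y y') (h' : CoverChain p 𝒰 N' y' y'') :
    CoverChain p 𝒰 (N + N') y y'' := by
  obtain ⟨z, h0, h1, h2⟩ := h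
  obtain ⟨z', h0', h1', h2'⟩ := h'
  refine ⟨fun i => if i ≤ N then z i else z' (i - N), ?_, ?_, fun i hi => ?_⟩
  · simpa using h0
  · by_cases hN : N' = 0
    · subst hN
      simp only [Nat.add_zero, le_refl, if_true]
      rw [h1, ← h0', h1']
    · show (if N + N' ≤ N then z (N + N') else z' (N + N' - N)) = y''
      rw [if_neg (by omega), show N + N' - N = N' by omega, h1']
  · show NearIn p 𝒰 (if i ≤ N then z i else z' (i - N))
      (if i + 1 ≤ N then z (i + 1) else z' (i + 1 - N))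
    rcases lt_trichotomy i N with hlt | heq | hgt
    · rw [if_pos (by omega), if_pos (by omega)]
      exact h2 i hlt
    · subst heq
      rw [if_pos le_rfl, if_neg (by omega), h1, ← h0', show i + 1 - i = 0 + 1 by omega]
      exact h2' 0 (by omega)
    · rw [if_neg (by omega), if_neg (by omega), show i + 1 - N = (i - N) + 1 by omega]
      exact h2' _ (by omega)

theorem CoverChain.const' {Y M : Type*} [TopologicalSpace Y] {p : Y → M} {𝒰 : Set (M × M)}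
    (h𝒰 : ∀ x, (x, x) ∈ 𝒰) (N : ℕ) (y : Y) : CoverChain p 𝒰 N y y :=
  ⟨fun _ => y, rfl, rfl, fun _ _ => ⟨ContinuousMap.const I y, rfl, rfl, fun _ _ => h𝒰 _⟩⟩

section

variable {X : Type u} [MetricSpace X] [CompactSpace X] {Y : Type v} [TopologicalSpace Y]

/-- the rate of shrinking of chains -/
def Gr (g : X ≃ₜ X) (δ l : ℝ) : Prop := ∃ C : ℝ, 1 ≤ C ∧ ∀ (N n : ℕ) (x y : X), Steps g δ N x y →
    ∃ N' : ℕ, (N' : ℝ) ≤ C * N * Real.exp (-(l * n)) + 1 ∧ Steps g δ N' (g^[n] x) (g^[n] y)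

/-- the rate of growth of chains -/
def Up (g : X ≃ₜ X) (δ L : ℝ) : Prop := ∃ C : ℝ, 1 ≤ C ∧ ∀ (N n : ℕ) (x y : X), Steps g δ N x y →
    ∃ N' : ℕ, (N' : ℝ) ≤ C * N * Real.exp (L * n) ∧ Steps g δ N' (g.symm^[n] x) (g.symm^[n] y)

/-- chains lift to the cover -/
def Co (p : C(Y, X)) (𝒲 : Set (X × X)) (g : X ≃ₜ X) (δ : ℝ) : Prop :=
  ∀ (γ : C(I, Y)) (υ : C(I, SM g)), (∀ t, p (γ t) = (υ t).val) → ∀ N : ℕ,
    Steps g δ N (p (γ 0)) (p (γ 1)) → CoverChain p 𝒲 N (γ 0) (γ 1)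

/-- distortion in the cover -/
def Di (p : C(Y, X)) (𝒲 : Set (X × X)) (g : X ≃ₜ X) (δ k : ℝ) : Prop :=
  ∃ C : ℝ, 1 ≤ C ∧ ∀ (γ : C(I, Y)) (υ : C(I, SM g)), (∀ t, p (γ t) = (υ t).val) → ∀ N : ℕ,
    1 ≤ N → CoverChain p 𝒲 N (γ 0) (γ 1) →
      ∃ N' : ℕ, (N' : ℝ) ≤ C * (N : ℝ) ^ k ∧ Steps g δ N' (p (γ 0)) (p (γ 1))

/-- one half of the a priori estimate -/
theorem half {p : C(Y, X)} (hp : IsCoveringMap p) (hsur : Function.Surjective p)
    {𝒲 : Set (X × X)} (h𝒲 : ∀ x, (x, x) ∈ 𝒲) {g : X ≃ₜ X} {δ l m M k : ℝ} (hl : 0 ≤ l)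
    (hk : 0 ≤ k) (G1 : Gr g δ l) (G2 : Gr g.symm δ m) (U2 : Up g.symm δ M)
    (V1 : Co p 𝒲 g δ) (V2 : Co p 𝒲 g.symm δ) (D2 : Di p 𝒲 g.symm δ k) (A B : ℕ) :
    ∃ C : ℝ, 1 ≤ C ∧ ∀ T : I → I → X, Rc g T → Steps g δ A (T 0 0) (T 1 0) →
      Steps g.symm δ B (T 0 0) (T 0 1) → ∀ S : ℕ, Steps g δ S (T 0 1) (T 1 1) → ∀ n : ℕ,
        ∃ N : ℕ, (N : ℝ) ≤ C * (C * (1 + Real.exp (M * n) + S * Real.exp (-(l * n)))) ^ k *
          Real.exp (-(m * n)) + 1 ∧ Steps g.symm δ N (T 1 0) (T 1 1) := by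
  obtain ⟨C1, hC1, G1⟩ := G1
  obtain ⟨C2, hC2, G2⟩ := G2
  obtain ⟨C3, hC3, U2⟩ := U2
  obtain ⟨C4, hC4, D2⟩ := D2
  set Q : ℝ := max (C2 * C4) (max (C1 * A + 3) (max (C3 * B) C1)) with hQ
  have q1 : C2 * C4 ≤ Q := le_max_left _ _
  have q2 : C1 * A + 3 ≤ Q := (le_max_left _ _).trans (le_max_right _ _)
  have q3 : C3 * B ≤ Q := (le_max_left _ _).trans ((le_max_right _ _).trans (le_max_right _ _))
  have q4 : C1 ≤ Q := (le_max_right _ _).trans ((le_max_right _ _).trans (le_max_right _ _))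
  have q0 : 1 ≤ Q := hC1.trans q4
  refine ⟨Q, q0, fun T hT hA hB S hS n => ?_⟩
  obtain ⟨N1, n1, s1⟩ := G1 A n _ _ hA
  obtain ⟨N2, n2, s2⟩ := U2 B n _ _ hB
  obtain ⟨N3, n3, s3⟩ := G1 S n _ _ hS
  have hTn := hT.iter n
  obtain ⟨F, hF⟩ := lift_rect hp hsur hTn
  obtain ⟨v0, hv0⟩ := hTn.pathS 0
  obtain ⟨v1, hv1⟩ := hTn.pathS 1
  obtain ⟨w0, hw0⟩ := hTn.pathU 0
  obtain ⟨w1, hw1⟩ := hTn.pathU 1
  have c1 : CoverChain p 𝒲 N1 (F (0, 0)) (F (1, 0)) :=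
    V1 ⟨fun s => F (s, 0), by fun_prop⟩ v0 (fun s => by rw [hv0]; exact hF s 0) N1 (by
      show Steps g δ N1 (p (F (0, 0))) (p (F (1, 0)))
      rw [hF, hF]; exact s1)
  have c2 : CoverChain p 𝒲 N2 (F (0, 0)) (F (0, 1)) :=
    V2 ⟨fun t => F (0, t), by fun_prop⟩ w0 (fun t => by rw [hw0]; exact hF 0 t) N2 (by
      show Steps g.symm δ N2 (p (F (0, 0))) (p (F (0, 1)))
      rw [hF, hF]; exact s2)
  have c3 : CoverChain p 𝒲 N3 (F (0, 1)) (F (1, 1)) :=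
    V1 ⟨fun s => F (s, 1), by fun_prop⟩ v1 (fun s => by rw [hv1]; exact hF s 1) N3 (by
      show Steps g δ N3 (p (F (0, 1))) (p (F (1, 1)))
      rw [hF, hF]; exact s3)
  have c4 := ((c1.symm'.trans' c2).trans' c3).trans' (CoverChain.const' h𝒲 1 (F (1, 1)))
  obtain ⟨N4, n4, s4⟩ := D2 ⟨fun t => F (1, t), by fun_prop⟩ w1
    (fun t => by rw [hw1]; exact hF 1 t) _ (by omega) c4
  have s5 : Steps g.symm δ N4 (g^[n] (T 1 0)) (g^[n] (T 1 1)) := by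
    have h1 : Steps g.symm δ N4 (p (F (1, 0))) (p (F (1, 1))) := s4
    rwa [hF, hF] at h1
  obtain ⟨N5, n5, s6⟩ := G2 N4 n _ _ s5
  rw [iterL, iterL] at s6
  refine ⟨N5, ?_, s6⟩
  -- the numbers
  have hS0 : (0 : ℝ) ≤ S := Nat.cast_nonneg _
  have hA0 : (0 : ℝ) ≤ A := Nat.cast_nonneg _
  have hB0 : (0 : ℝ) ≤ B := Nat.cast_nonneg _
  have e1 : Real.exp (-(l * n)) ≤ 1 := by
    rw [Real.exp_le_one_iff]
    have : 0 ≤ l * n := by positivity
    linarith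
  have e2 := Real.exp_pos (M * n)
  have e3 := Real.exp_pos (-(l * n))
  have e4 := Real.exp_pos (-(m * n))
  have hN : (((N1 + N2 + N3 + 1 : ℕ) : ℕ) : ℝ) ≤
      Q * (1 + Real.exp (M * n) + S * Real.exp (-(l * n))) := by
    push_cast
    have t1 : (N1 : ℝ) ≤ C1 * A + 1 := by
      refine n1.trans ?_
      have : C1 * A * Real.exp (-(l * n)) ≤ C1 * A * 1 :=
        mul_le_mul_of_nonneg_left e1 (by positivity)
      linarith
    have t2 : C3 * B * Real.exp (M * n) ≤ Q * Real.exp (M * n) :=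
      mul_le_mul_of_nonneg_right q3 e2.le
    have t3 : C1 * S * Real.exp (-(l * n)) ≤ Q * (S * Real.exp (-(l * n))) := by
      rw [mul_assoc]
      exact mul_le_mul_of_nonneg_right q4 (by positivity)
    have t4 : Q * (1 + Real.exp (M * n) + S * Real.exp (-(l * n))) =
      Q + Q * Real.exp (M * n) + Q * (S * Real.exp (-(l * n))) := by ring
    rw [t4]
    linarith
  have hpow : ((N1 + N2 + N3 + 1 : ℕ) : ℝ) ^ k ≤
      (Q * (1 + Real.exp (M * n) + S * Real.exp (-(l * n)))) ^ k :=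
    Real.rpow_le_rpow (Nat.cast_nonneg _) hN hk
  have hP0 : 0 ≤ (Q * (1 + Real.exp (M * n) + S * Real.exp (-(l * n)))) ^ k :=
    Real.rpow_nonneg (by positivity) k
  calc (N5 : ℝ) ≤ C2 * N4 * Real.exp (-(m * n)) + 1 := n5
    _ ≤ C2 * (C4 * (Q * (1 + Real.exp (M * n) + S * Real.exp (-(l * n)))) ^ k) *
        Real.exp (-(m * n)) + 1 := by
      have h1 : (N4 : ℝ) ≤ C4 * (Q * (1 + Real.exp (M * n) + S * Real.exp (-(l * n)))) ^ k :=
        n4.trans (mul_le_mul_of_nonneg_left hpow (by linarith))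
      have h2 := mul_le_mul_of_nonneg_left h1 (show 0 ≤ C2 by linarith)
      have h3 := mul_le_mul_of_nonneg_right h2 e4.le
      linarith
    _ ≤ _ := by
      have h1 : C2 * (C4 * (Q * (1 + Real.exp (M * n) + S * Real.exp (-(l * n)))) ^ k) ≤
          Q * (Q * (1 + Real.exp (M * n) + S * Real.exp (-(l * n)))) ^ k := by
        rw [← mul_assoc]
        exact mul_le_mul_of_nonneg_right q1 hP0
      have h3 := mul_le_mul_of_nonneg_right h1 e4.le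
      linarith

end

end Pool.Agent.K6.H72.PD
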