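import Pool.Agent.K6.H72.PD.A2
import Pool.Agent.N234.CP.LiftAll

/-!
# The a priori estimate and the existence of all rectangles
-/

set_option autoImplicit false

open Filter Topology Set Metric unitInterval

namespace Pool.Agent.K6.H72.PD

open Pool.Agent.N234.CP Pool.Agent.H789R2.AN Pool.Agent.H789R2.GP Pool.Agent.TH289.K
  Pool.Agent.H721R2 Pool.Agent.Y330.H Pool.Agent.TH289.L

universe u v

theorem bound_mono {C C' E E' k x : ℝ} (hC : 1 ≤ C) (hCC : C ≤ C') (hE : 0 ≤ E) (hE' : 0 ≤ E')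
    (hk : 0 ≤ k) (hx : x ≤ C * (C * E) ^ k * E' + 1) : x ≤ C' * (C' * E) ^ k * E' + 1 := by
  refine hx.trans ?_
  have h1 : (C * E) ^ k ≤ (C' * E) ^ k :=
    Real.rpow_le_rpow (by positivity) (mul_le_mul_of_nonneg_right hCC hE) hk
  have h2 : C * (C * E) ^ k ≤ C' * (C' * E) ^ k :=
    mul_le_mul hCC h1 (Real.rpow_nonneg (by positivity) k) (by linarith)
  have h3 := mul_le_mul_of_nonneg_right h2 hE'
  linarith

section

variable {X : Type u} [MetricSpace X] [CompactSpace X] {Y : Type v} [TopologicalSpace Y]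

theorem steps_succ {g : X ≃ₜ X} {δ : ℝ} (hδ : 0 ≤ δ) {x y : X} (h : Steps g δ 0 x y) :
    Steps g δ 1 x y := by
  obtain ⟨z, h0, h1, -⟩ := h
  have hxy : x = y := h0.symm.trans h1
  subst hxy
  exact ⟨fun _ => x, rfl, rfl, fun _ _ k => by rw [dist_self]; exact hδ⟩

/-- shortest chains -/
theorem shortest {g : X ≃ₜ X} {δ : ℝ} (hδ : 0 ≤ δ) {x y : X} (h : ∃ N, 1 ≤ N ∧ Steps g δ N x y) :
    ∃ S : ℕ, 1 ≤ S ∧ Steps g δ S x y ∧ ∀ (b : ℝ), 1 ≤ b → ∀ N : ℕ, (N : ℝ) ≤ b →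
      Steps g δ N x y → (S : ℝ) ≤ b := by
  classical
  refine ⟨Nat.find h, (Nat.find_spec h).1, (Nat.find_spec h).2, fun b hb N hN hs => ?_⟩
  rcases Nat.eq_zero_or_pos N with rfl | hpos
  · have h1 : Nat.find h ≤ 1 := Nat.find_min' h ⟨le_rfl, steps_succ hδ hs⟩
    have : ((Nat.find h : ℕ) : ℝ) ≤ 1 := by exact_mod_cast h1
    exact this.trans hb
  · have h1 : Nat.find h ≤ N := Nat.find_min' h ⟨hpos, hs⟩
    have : ((Nat.find h : ℕ) : ℝ) ≤ N := by exact_mod_cast h1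
    exact this.trans hN

/-- the a priori estimate -/
theorem apriori (hNUM : S_NUM) (hPTH : S_PTH.{u}) {p : C(Y, X)} (hp : IsCoveringMap p)
    (hsur : Function.Surjective p) {𝒲 : Set (X × X)} (h𝒲 : ∀ x, (x, x) ∈ 𝒲) {g : X ≃ₜ X}
    {δ l L m M ks ku : ℝ} (hδ : 0 < δ) (hl : 0 < l) (hlL : l ≤ L) (hm : 0 < m) (hmM : m ≤ M)
    (hks : 1 ≤ ks) (hku : 1 ≤ ku) (hcond : (ku * M - m) * (ks * L - l) < (l + M) * (m + L))
    (G1 : Gr g δ l) (G2 : Gr g.symm δ m) (U1 : Up g δ L) (U2 : Up g.symm δ M)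
    (V1 : Co p 𝒲 g δ) (V2 : Co p 𝒲 g.symm δ) (D1 : Di p 𝒲 g δ ks) (D2 : Di p 𝒲 g.symm δ ku)
    (A B : ℕ) : ∃ K : ℝ, ∀ T : I → I → X, Rc g T → Steps g δ A (T 0 0) (T 1 0) →
      Steps g.symm δ B (T 0 0) (T 0 1) →
        ∃ N : ℕ, (N : ℝ) ≤ K ∧ Steps g.symm δ N (T 1 0) (T 1 1) := by
  obtain ⟨C1, hC1, E1⟩ := half hp hsur h𝒲 hl.le (by linarith) G1 G2 U2 V1 V2 D2 A B
  obtain ⟨C2, hC2, E2⟩ := half (g := g.symm) hp hsur h𝒲 hm.le (by linarith) G2 G1 U1 V2 V1 D1 B A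
  set C := max C1 C2 with hC
  have hC0 : 1 ≤ C := hC1.trans (le_max_left _ _)
  obtain ⟨K, hK⟩ := hNUM l L m M ks ku C hl hlL hm hmM hks hku hcond hC0
  refine ⟨K, fun T hT hA hB => ?_⟩
  obtain ⟨t1, ht1⟩ := hT.pathS 1
  obtain ⟨t2, ht2⟩ := hT.pathU 1
  obtain ⟨a1, ha1, hst1⟩ := hPTH X g δ hδ t1
  obtain ⟨a2, ha2, hst2⟩ := hPTH X g.symm δ hδ t2
  obtain ⟨S, hS1, hS2, hS3⟩ := shortest (g := g) hδ.le (x := T 0 1) (y := T 1 1)
    ⟨a1, ha1, by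
      have := hst1 0 1
      rwa [ht1, ht1] at this⟩
  obtain ⟨U, hU1, hU2, hU3⟩ := shortest (g := g.symm) hδ.le (x := T 1 0) (y := T 1 1)
    ⟨a2, ha2, by
      have := hst2 0 1
      rwa [ht2, ht2] at this⟩
  have r1 : ∀ n : ℕ, (U : ℝ) ≤ C * (C * (1 + Real.exp (M * n) + S * Real.exp (-(l * n)))) ^ ku *
      Real.exp (-(m * n)) + 1 := by
    intro n
    obtain ⟨N, hN, hs⟩ := E1 T hT hA hB S hS2 n
    have hN' := bound_mono hC1 (le_max_left C1 C2)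
      (by positivity : 0 ≤ 1 + Real.exp (M * n) + S * Real.exp (-(l * n)))
      (Real.exp_pos (-(m * n))).le (by linarith) hN
    refine hU3 _ ?_ N hN' hs
    have : 0 ≤ C * (C * (1 + Real.exp (M * n) + S * Real.exp (-(l * n)))) ^ ku *
      Real.exp (-(m * n)) := by positivity
    linarith
  have r2 : ∀ n : ℕ, (S : ℝ) ≤ C * (C * (1 + Real.exp (L * n) + U * Real.exp (-(m * n)))) ^ ks *
      Real.exp (-(l * n)) + 1 := by
    intro n
    obtain ⟨N, hN, hs⟩ := E2 (fun t s => T s t) hT.tr hB hA U hU2 n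
    have hN' := bound_mono hC2 (le_max_right C1 C2)
      (by positivity : 0 ≤ 1 + Real.exp (L * n) + U * Real.exp (-(m * n)))
      (Real.exp_pos (-(l * n))).le (by linarith) hN
    refine hS3 _ ?_ N hN' hs
    have : 0 ≤ C * (C * (1 + Real.exp (L * n) + U * Real.exp (-(m * n)))) ^ ks *
      Real.exp (-(l * n)) := by positivity
    linarith
  obtain ⟨-, k2⟩ := hK S U (by exact_mod_cast hS1) (by exact_mod_cast hU1) r1 r2
  exact ⟨U, k2, hU2⟩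

/-- all unstable paths slide along all stable displacements -/
theorem lift_pd (hNUM : S_NUM) (hPTH : S_PTH.{u}) {p : C(Y, X)} (hp : IsCoveringMap p)
    (hsur : Function.Surjective p) {𝒲 : Set (X × X)} (h𝒲 : ∀ x, (x, x) ∈ 𝒲) {g : X ≃ₜ X}
    {c : ℝ} (h : LP g c) (hX : ULC X)
    {δ l L m M ks ku : ℝ} (hδ : 0 < δ) (hδc : δ ≤ c) (hl : 0 < l) (hlL : l ≤ L) (hm : 0 < m)
    (hmM : m ≤ M) (hks : 1 ≤ ks) (hku : 1 ≤ ku)
    (hcond : (ku * M - m) * (ks * L - l) < (l + M) * (m + L)) (hLo : LoRate g.symm δ m)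
    (G1 : Gr g δ l) (G2 : Gr g.symm δ m) (U1 : Up g δ L) (U2 : Up g.symm δ M)
    (V1 : Co p 𝒲 g δ) (V2 : Co p 𝒲 g.symm δ) (D1 : Di p 𝒲 g δ ks)
    (D2 : Di p 𝒲 g.symm δ ku) : ∀ a s, WS g a s → Lf g a s := by
  intro a s has υ hυ
  obtain ⟨c₁, hc₁, hs⟩ := exists_sl h
  obtain ⟨τ, hτ0, hτ1⟩ := leaf_conn h hX a s has
  obtain ⟨A, hA, hA'⟩ := hPTH X g δ hδ τ
  obtain ⟨B, hB, hB'⟩ := hPTH X g.symm δ hδ υ
  obtain ⟨K, hK⟩ := apriori hNUM hPTH hp hsur h𝒲 hδ hl hlL hm hmM hks hku hcond G1 G2 U1 U2 V1 V2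
    D1 D2 A B
  obtain ⟨D, hD, hfine⟩ := hLo.fine h.symm hm hδc hc₁
  obtain ⟨n, hn⟩ : ∃ n : ℕ, D * K ≤ Real.exp (m * n) := by
    have h1 : Tendsto (fun n : ℕ => Real.exp (m * n)) atTop atTop :=
      Real.tendsto_exp_atTop.comp (tendsto_natCast_atTop_atTop.const_mul_atTop hm)
    exact (h1.eventually_ge_atTop (D * K)).exists
  have h0 : (τ 0).val = (υ 0).val := by rw [hτ0, hυ]
  obtain ⟨T, a1, a2, a3⟩ := extend' h hc₁ hs (K := n) υ τ (by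
    intro r T hT hb hlft t
    have hT' : Rc g (fun s' t' => T s' (t * t')) :=
      hT.reparam (a := fun s' => s') (b := fun t' => t * t') (by fun_prop) (by fun_prop)
    obtain ⟨N, hN, hst⟩ := hK _ hT' (by
        show Steps g δ A (T 0 (t * 0)) (T 1 (t * 0))
        rw [mul_zero, hb, hb]
        exact hA' _ _) (by
        show Steps g.symm δ B (T 0 (t * 0)) (T 0 (t * 1))
        rw [hlft, hlft]
        exact hB' _ _)
    have hst' : Steps g.symm δ N (T 1 0) (T 1 t) := by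
      have e : Steps g.symm δ N (T 1 (t * 0)) (T 1 (t * 1)) := hst
      rwa [mul_zero, mul_one] at e
    refine hfine N n _ _ ?_ hst'
    exact (mul_le_mul_of_nonneg_left hN (by linarith)).trans hn) h0
  obtain ⟨Γ, b1, b2⟩ := a1.strip 0 1
  refine ⟨(Γ 1).y, Γ, ?_, rfl, fun t => by rw [b1, a3]⟩
  rw [b2, a2, hτ1]

end

end Pool.Agent.K6.H72.PD
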