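import Pool.Agent.K6.H72.PD.A3

/-!
# From topological rates and distortion to the rates of an iterate in a metric
-/

set_option autoImplicit false

open Filter Topology Set Metric unitInterval

namespace Pool.Agent.K6.H72.PD

open Pool.Agent.N234.CP Pool.Agent.H789R2.AN Pool.Agent.H789R2.GP Pool.Agent.TH289.K
  Pool.Agent.H721R2 Pool.Agent.Y330.H Pool.Agent.TH289.L

universe u v

theorem CoverChain.mono' {Y M : Type*} [TopologicalSpace Y] {p : Y → M} {𝒰 𝒱 : Set (M × M)}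
    (h𝒰 : 𝒰 ⊆ 𝒱) {N : ℕ} {y y' : Y} (h : CoverChain p 𝒰 N y y') : CoverChain p 𝒱 N y y' := by
  obtain ⟨z, h0, h1, h2⟩ := h
  refine ⟨z, h0, h1, fun i hi => ?_⟩
  obtain ⟨d, d0, d1, d2⟩ := h2 i hi
  exact ⟨d, d0, d1, fun s t => h𝒰 (d2 s t)⟩

section

variable {X : Type u} [MetricSpace X] [CompactSpace X] {Y : Type v} [TopologicalSpace Y]

/-- paths in the stable leaves of an iterate are stable paths -/
theorem stable_of_iter {f : X ≃ₜ X} {m : ℕ} (hm : 1 ≤ m) {c : ℝ} (h : LP (iterHomeo f m) c)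
    {γ : C(I, X)} (υ : C(I, SM (iterHomeo f m))) (hγ : ∀ t, γ t = (υ t).val) :
    StablePath f γ := by
  intro 𝒰 h𝒰
  obtain ⟨δ, hδ, h1⟩ := close_of_SR f hm h𝒰
  obtain ⟨n, hn⟩ := path_small h υ hδ
  refine eventually_atTop.2 ⟨m * n, fun k hk t => ?_⟩
  have h2 := h1 _ _ (hn n le_rfl t) (k - m * n)
  rw [iterHomeo_iter, iterHomeo_iter, ← Function.iterate_add_apply,
    ← Function.iterate_add_apply, Nat.sub_add_cancel hk, ← hγ, ← hγ] at h2
  exact h2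

/-- distortion for an iterate, in a metric -/
theorem di_of {f : X ≃ₜ X} {p : C(Y, X)} {k : ℝ} (hD : PolyDistorted f p k) {m : ℕ}
    (hm : 1 ≤ m) {c : ℝ} (h : LP (iterHomeo f m) c) : ∃ ε₀ > 0, ∀ ε : ℝ, ε ≤ ε₀ →
      ∀ δ > 0, Di p {q | dist q.1 q.2 < ε} (iterHomeo f m) δ k := by
  obtain ⟨𝒰₀, h𝒰₀, h1⟩ := hD
  obtain ⟨ε₀, hε₀, h2⟩ := diag_mem.1 h𝒰₀
  refine ⟨ε₀, hε₀, fun ε hε δ hδ => ?_⟩
  obtain ⟨C, h3⟩ := h1 {q | dist q.1 q.2 < δ} (diag_mem.2 ⟨δ, hδ, fun x y h => h⟩)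
  refine ⟨max 1 C, le_max_left _ _, fun γ υ hγ N hN hc => ?_⟩
  obtain ⟨N', n1, n2⟩ := h3 γ (stable_of_iter hm h υ hγ) N hN
    (hc.mono' fun q hq => h2 _ _ (lt_of_lt_of_le hq hε))
  refine ⟨N', n1.trans (mul_le_mul_of_nonneg_right (le_max_right _ _)
    (Real.rpow_nonneg (Nat.cast_nonneg _) k)), ?_⟩
  obtain ⟨z, z0, z1, z2⟩ := n2
  exact ⟨z, z0, z1, fun i hi => SR_of_close f m (fun q hq => le_of_lt hq) (z2 i hi)⟩

/-- chains lift -/
theorem co_of (hRLZ : S_RLZ.{u, v}) (hHLI : S_HLI.{u, v}) {g : X ≃ₜ X} {c : ℝ} (h : LP g c)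
    (hX : ULC X) {p : C(Y, X)} (hp : IsCoveringMap p) {ε : ℝ} (hε : 0 < ε) : ∃ δ₀ > 0,
      ∀ δ ≤ δ₀, Co p {q | dist q.1 q.2 < ε} g δ := by
  obtain ⟨δ₀, hδ₀, h1⟩ := hRLZ X Y g c h hX p hp ε hε
  refine ⟨δ₀, hδ₀, fun δ hδ γ υ hγ N hst => ?_⟩
  obtain ⟨γ', υ', a1, a2, a3, a4, a5⟩ := h1 N _ _ (hst.mono hδ) (γ 0) rfl
  have e : γ 1 = γ' 1 := hHLI X Y g c h hX p hp γ γ' υ υ' hγ a4 a1.symm (by
    rw [a3]
    exact SM.ext (hγ 1).symm)
  rwa [a1, ← e] at a5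

/-- all rectangles exist, for an iterate -/
theorem main_metric (hNUM : S_NUM) (hPTH : S_PTH.{u}) (hGRP : S_GRP.{u}) (hUPC : S_UPC.{u})
    (hRLZ : S_RLZ.{u, v}) (hHLI : S_HLI.{u, v}) {f : X ≃ₜ X} {p : C(Y, X)}
    (hp : IsCoveringMap p) (hsur : Function.Surjective p) (hX : ULC X) {n : ℕ} (hn : 1 ≤ n)
    {c : ℝ} (h : LP (iterHomeo f n) c) {l L m M ks ku : ℝ} (hl : 0 < l) (hlL : l ≤ L)
    (hm : 0 < m) (hmM : m ≤ M) (hks : 1 ≤ ks) (hku : 1 ≤ ku)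
    (hcond : (ku * M - m) * (ks * L - l) < (l + M) * (m + L)) (h1 : CoarseContracts f l)
    (h2 : CoarseContracts f.symm m) (h3 : CoarseExpands f L) (h4 : CoarseExpands f.symm M)
    (h5 : PolyDistorted f p ks) (h6 : PolyDistorted f.symm p ku) :
    ∀ a s, WS (iterHomeo f n) a s → Lf (iterHomeo f n) a s := by
  have hsym : (iterHomeo f n).symm = iterHomeo f.symm n := rfl
  have hc := h.c_pos
  have hs : LP (iterHomeo f.symm n) c := by rw [← hsym]; exact h.symm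
  have hn0 : (0 : ℝ) < n := by
    have : (1 : ℝ) ≤ n := by exact_mod_cast hn
    linarith
  obtain ⟨e₁, he₁, D1⟩ := di_of h5 hn h
  obtain ⟨e₂, he₂, D2⟩ := di_of h6 hn hs
  set ε := min e₁ e₂ with hε
  have ε0 : 0 < ε := lt_min he₁ he₂
  obtain ⟨d₁, hd₁, V1⟩ := co_of hRLZ hHLI h hX hp ε0
  obtain ⟨d₂, hd₂, V2⟩ := co_of hRLZ hHLI hs hX hp ε0
  obtain ⟨d₃, hd₃, R1⟩ := CoarseContracts.loRate (f := f) h1 hn
  obtain ⟨d₄, hd₄, R2⟩ := CoarseContracts.loRate (f := f.symm) h2 hn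
  obtain ⟨d₅, hd₅, R3⟩ := CoarseExpands.upRate (f := f) h3 hn
  obtain ⟨d₆, hd₆, R4⟩ := CoarseExpands.upRate (f := f.symm) h4 hn
  set δ := min (min (min d₁ d₂) (min d₃ d₄)) (min (min d₅ d₆) c) with hδ
  have δ0 : 0 < δ := by positivity
  have k12 : δ ≤ min d₁ d₂ := (min_le_left _ _).trans (min_le_left _ _)
  have k34 : δ ≤ min d₃ d₄ := (min_le_left _ _).trans (min_le_right _ _)
  have k56 : δ ≤ min d₅ d₆ := (min_le_right _ _).trans (min_le_left _ _)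
  have k7 : δ ≤ c := (min_le_right _ _).trans (min_le_right _ _)
  have k1 := k12.trans (min_le_left _ _)
  have k2 := k12.trans (min_le_right _ _)
  have k3 := k34.trans (min_le_left _ _)
  have k4 := k34.trans (min_le_right _ _)
  have k5 := k56.trans (min_le_left _ _)
  have k6 := k56.trans (min_le_right _ _)
  have p1 : 0 < l * n := by positivity
  have p2 : 0 < m * n := by positivity
  have q1 : l * n ≤ L * n := mul_le_mul_of_nonneg_right hlL hn0.le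
  have q2 : m * n ≤ M * n := mul_le_mul_of_nonneg_right hmM hn0.le
  have hcond' : (ku * (M * n) - m * n) * (ks * (L * n) - l * n) <
      (l * n + M * n) * (m * n + L * n) := by
    have e : (ku * (M * n) - m * n) * (ks * (L * n) - l * n) =
      (ku * M - m) * (ks * L - l) * ((n : ℝ) * n) := by ring
    have e' : (l * n + M * n) * (m * n + L * n) = (l + M) * (m + L) * ((n : ℝ) * n) := by ring
    rw [e, e']
    exact mul_lt_mul_of_pos_right hcond (by positivity)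
  have r1 := R1 δ δ0 k3
  have r2 := R2 δ δ0 k4
  have r3 := R3 δ δ0 k5
  have r4 := R4 δ δ0 k6
  exact lift_pd hNUM hPTH hp hsur (𝒲 := {q | dist q.1 q.2 < ε})
    (fun x => by
      show dist x x < ε
      rw [dist_self]
      exact ε0) h hX δ0 k7 p1 q1 p2 q2 hks hku hcond' r2
    (hGRP X _ δ _ δ0 p1 r1) (hGRP X _ δ _ δ0 p2 r2) (hUPC X _ δ _ δ0 r3) (hUPC X _ δ _ δ0 r4)
    (V1 δ k1) (V2 δ k2) (D1 ε (min_le_left _ _) δ δ0) (D2 ε (min_le_right _ _) δ δ0)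

end

end Pool.Agent.K6.H72.PD
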