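import Pool.Agent.K6.H72.PD.Stm2
import Pool.Agent.K6.H72.PD.A3

/-!
# Only one distorted foliation: the estimate of the rows
-/

set_option autoImplicit false

open Filter Topology Set Metric unitInterval

namespace Pool.Agent.K6.H72.PD

open Pool.Agent.N234.CP Pool.Agent.H789R2.AN Pool.Agent.H789R2.GP Pool.Agent.TH289.K
  Pool.Agent.H721R2 Pool.Agent.Y330.H Pool.Agent.TH289.L

universe u v

section

variable {X : Type u} [MetricSpace X] [CompactSpace X] {Y : Type v} [TopologicalSpace Y]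

/-- the estimate of the rows -/
theorem row {p : C(Y, X)} (hp : IsCoveringMap p) (hsur : Function.Surjective p)
    {𝒲 : Set (X × X)} (h𝒲 : ∀ x, (x, x) ∈ 𝒲) {g : X ≃ₜ X} {δ L m k : ℝ}
    (hk : 0 ≤ k) (G2 : Gr g.symm δ m) (U1 : Up g δ L)
    (V1 : Co p 𝒲 g δ) (V2 : Co p 𝒲 g.symm δ) (D1 : Di p 𝒲 g δ k) :
    ∃ C : ℝ, 1 ≤ C ∧ ∀ (A j j' n k₀ : ℕ) (J : ℝ) (R : I → I → X), Rc g R →
      Steps g δ A (g.symm^[n] (R 0 0)) (g.symm^[n] (R 1 0)) → (j : ℝ) ≤ J → (j' : ℝ) ≤ J →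
      Steps g.symm δ j (R 0 0) (R 0 1) → Steps g.symm δ j' (R 1 0) (R 1 1) →
        ∃ N : ℕ, (N : ℝ) ≤ C * (C * (1 + J * Real.exp (-(m * (n + k₀ : ℕ))) +
          A * Real.exp (L * k₀))) ^ k ∧
          Steps g δ N (g.symm^[n + k₀] (R 0 1)) (g.symm^[n + k₀] (R 1 1)) := by
  obtain ⟨C1, hC1, U1⟩ := U1
  obtain ⟨C2, hC2, G2⟩ := G2
  obtain ⟨C4, hC4, D1⟩ := D1
  set Q : ℝ := max C4 (max (2 * C2) (max C1 3)) with hQ
  have q1 : C4 ≤ Q := le_max_left _ _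
  have q2 : 2 * C2 ≤ Q := (le_max_left _ _).trans (le_max_right _ _)
  have q3 : C1 ≤ Q := (le_max_left _ _).trans ((le_max_right _ _).trans (le_max_right _ _))
  have q4 : 3 ≤ Q := (le_max_right _ _).trans ((le_max_right _ _).trans (le_max_right _ _))
  have q0 : 1 ≤ Q := by linarith
  refine ⟨Q, q0, fun A j j' n k₀ J R hR hA hj hj' hl hr => ?_⟩
  set q := n + k₀ with hq
  obtain ⟨N1, n1, s1⟩ := G2 j q _ _ hl
  obtain ⟨N2, n2, s2⟩ := U1 A k₀ _ _ hA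
  obtain ⟨N3, n3, s3⟩ := G2 j' q _ _ hr
  rw [← Function.iterate_add_apply, ← Function.iterate_add_apply, Nat.add_comm k₀ n, ← hq] at s2
  have hRq := hR.iter' q
  obtain ⟨F, hF⟩ := lift_rect hp hsur hRq
  obtain ⟨v0, hv0⟩ := hRq.pathS 0
  obtain ⟨v1, hv1⟩ := hRq.pathS 1
  obtain ⟨w0, hw0⟩ := hRq.pathU 0
  obtain ⟨w1, hw1⟩ := hRq.pathU 1
  have c1 : CoverChain p 𝒲 N1 (F (0, 0)) (F (0, 1)) :=
    V2 ⟨fun t => F (0, t), by fun_prop⟩ w0 (fun t => by rw [hw0]; exact hF 0 t) N1 (by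
      show Steps g.symm δ N1 (p (F (0, 0))) (p (F (0, 1)))
      rw [hF, hF]; exact s1)
  have c2 : CoverChain p 𝒲 N2 (F (0, 0)) (F (1, 0)) :=
    V1 ⟨fun s => F (s, 0), by fun_prop⟩ v0 (fun s => by rw [hv0]; exact hF s 0) N2 (by
      show Steps g δ N2 (p (F (0, 0))) (p (F (1, 0)))
      rw [hF, hF]; exact s2)
  have c3 : CoverChain p 𝒲 N3 (F (1, 0)) (F (1, 1)) :=
    V2 ⟨fun t => F (1, t), by fun_prop⟩ w1 (fun t => by rw [hw1]; exact hF 1 t) N3 (by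
      show Steps g.symm δ N3 (p (F (1, 0))) (p (F (1, 1)))
      rw [hF, hF]; exact s3)
  have c4 := ((c1.symm'.trans' c2).trans' c3).trans' (CoverChain.const' h𝒲 1 (F (1, 1)))
  obtain ⟨N4, n4, s4⟩ := D1 ⟨fun s => F (s, 1), by fun_prop⟩ v1
    (fun s => by rw [hv1]; exact hF s 1) _ (by omega) c4
  have s5 : Steps g δ N4 (g.symm^[q] (R 0 1)) (g.symm^[q] (R 1 1)) := by
    have h1 : Steps g δ N4 (p (F (0, 1))) (p (F (1, 1))) := s4
    rwa [hF, hF] at h1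
  refine ⟨N4, ?_, s5⟩
  have hA0 : (0 : ℝ) ≤ A := Nat.cast_nonneg _
  have hJ0 : (0 : ℝ) ≤ J := (Nat.cast_nonneg j).trans hj
  have e1 := Real.exp_pos (-(m * q))
  have e2 := Real.exp_pos (L * k₀)
  have hN : (((N1 + N2 + N3 + 1 : ℕ) : ℕ) : ℝ) ≤
      Q * (1 + J * Real.exp (-(m * q)) + A * Real.exp (L * k₀)) := by
    push_cast
    have t1 : (N1 : ℝ) ≤ C2 * (J * Real.exp (-(m * q))) + 1 := by
      refine n1.trans ?_
      have := mul_le_mul_of_nonneg_right hj e1.le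
      have h2 := mul_le_mul_of_nonneg_left this (show 0 ≤ C2 by linarith)
      have h3 : C2 * j * Real.exp (-(m * q)) = C2 * (j * Real.exp (-(m * q))) := by ring
      linarith
    have t3 : (N3 : ℝ) ≤ C2 * (J * Real.exp (-(m * q))) + 1 := by
      refine n3.trans ?_
      have := mul_le_mul_of_nonneg_right hj' e1.le
      have h2 := mul_le_mul_of_nonneg_left this (show 0 ≤ C2 by linarith)
      have h3 : C2 * j' * Real.exp (-(m * q)) = C2 * (j' * Real.exp (-(m * q))) := by ring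
      linarith
    have t2 : C1 * A * Real.exp (L * k₀) ≤ Q * (A * Real.exp (L * k₀)) := by
      rw [mul_assoc]
      exact mul_le_mul_of_nonneg_right q3 (by positivity)
    have t4 : Q * (1 + J * Real.exp (-(m * q)) + A * Real.exp (L * k₀)) =
      Q + Q * (J * Real.exp (-(m * q))) + Q * (A * Real.exp (L * k₀)) := by ring
    have t5 : 2 * C2 * (J * Real.exp (-(m * q))) ≤ Q * (J * Real.exp (-(m * q))) :=
      mul_le_mul_of_nonneg_right q2 (by positivity)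
    rw [t4]
    linarith
  have hpow : ((N1 + N2 + N3 + 1 : ℕ) : ℝ) ^ k ≤
      (Q * (1 + J * Real.exp (-(m * q)) + A * Real.exp (L * k₀))) ^ k :=
    Real.rpow_le_rpow (Nat.cast_nonneg _) hN hk
  have hP0 : 0 ≤ (Q * (1 + J * Real.exp (-(m * q)) + A * Real.exp (L * k₀))) ^ k :=
    Real.rpow_nonneg (by positivity) k
  calc (N4 : ℝ) ≤ C4 * ((N1 + N2 + N3 + 1 : ℕ) : ℝ) ^ k := n4
    _ ≤ C4 * (Q * (1 + J * Real.exp (-(m * q)) + A * Real.exp (L * k₀))) ^ k :=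
      mul_le_mul_of_nonneg_left hpow (by linarith)
    _ ≤ _ := mul_le_mul_of_nonneg_right q1 hP0

end

end Pool.Agent.K6.H72.PD
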