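import Pool.Agent.K6.H72.PD.B1

/-!
# Only one distorted foliation: nice rectangles
-/

set_option autoImplicit false

open Filter Topology Set Metric unitInterval

namespace Pool.Agent.K6.H72.PD

open Pool.Agent.N234.CP Pool.Agent.H789R2.AN Pool.Agent.H789R2.GP Pool.Agent.TH289.K
  Pool.Agent.H721R2 Pool.Agent.Y330.H Pool.Agent.TH289.L

universe u v

section

variable {X : Type u} [MetricSpace X] [CompactSpace X] {Y : Type v} [TopologicalSpace Y]

theorem steps_shift {g : X ≃ₜ X} {δ : ℝ} {N : ℕ} {x y : X} (h : Steps g δ N x y) (n : ℕ) :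
    Steps g δ N (g^[n] x) (g^[n] y) := by
  obtain ⟨z, z0, z1, hz⟩ := h
  refine ⟨fun i => g^[n] (z i), congrArg _ z0, congrArg _ z1, fun i hi k => ?_⟩
  rw [← Function.iterate_add_apply, ← Function.iterate_add_apply]
  exact hz i hi (k + n)

theorem bound_mono' {C C' E k : ℝ} (hC : 0 ≤ C) (hCC : C ≤ C') (hE : 0 ≤ E) (hk : 0 ≤ k) :
    (C * E) ^ k ≤ (C' * E) ^ k :=
  Real.rpow_le_rpow (by positivity) (mul_le_mul_of_nonneg_right hCC hE) hk

/-- nice rectangles -/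
theorem nice (hNUM : S_NUM2) (hTOW : S_TOW.{u}) {p : C(Y, X)} (hp : IsCoveringMap p)
    (hsur : Function.Surjective p) {𝒲 : Set (X × X)} (h𝒲 : ∀ x, (x, x) ∈ 𝒲) {g : X ≃ₜ X}
    {c c₁ : ℝ} (h : LP g c) (hc₁ : 0 < c₁) (hbox : ∀ e > 0, ∃ η > 0, BoxP g c₁ e η)
    {δ l L m M k : ℝ} (hδ : 0 < δ) (hδc : δ ≤ c) (hl : 0 < l) (hlL : l ≤ L) (hm : 0 < m)
    (hmM : m ≤ M) (hk : 1 ≤ k) (hcond : k * L * (M - m) < l * (L + M)) (hLo : LoRate g δ l)
    (G2 : Gr g.symm δ m) (U1 : Up g δ L) (U2 : Up g.symm δ M)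
    (V1 : Co p 𝒲 g δ) (V2 : Co p 𝒲 g.symm δ) (D1 : Di p 𝒲 g δ k) (A B : ℕ) :
    ∃ K : ℕ, ∀ (τ : C(I, SM g)) (x : X), (∀ s, Steps g δ A (τ 0).val (τ s).val) →
      Steps g.symm δ B (τ 0).val x → ∃ R : I → I → X, Rc g R ∧ (∀ s, R s 0 = (τ s).val) ∧
        R 0 1 = x ∧ ∃ N ≤ K, Steps g.symm δ N (R 1 0) (R 1 1) := by
  have hc := h.c_pos
  obtain ⟨η, hη, hb⟩ := hbox δ hδ
  obtain ⟨C, hC, hrow⟩ := row hp hsur h𝒲 (by linarith : 0 ≤ k) G2 U1 V1 V2 D1
  obtain ⟨D, hD, hfine⟩ := hLo.fine h hl hδc hc₁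
  obtain ⟨C3, hC3, U2⟩ := U2
  obtain ⟨M₀, hM₀⟩ := qs_exists_pow hc hη
  set B' : ℝ := C3 * B * Real.exp (M * M₀) with hB'
  have B'0 : 0 ≤ B' := by positivity
  obtain ⟨n, k₀, hnum⟩ := hNUM l L m M k (D * C) A B' hl hlL hm hmM hk hcond
    (by nlinarith) (Nat.cast_nonneg _) B'0
  set Jr : ℝ := B' * Real.exp (M * n) with hJr
  have Jr0 : 0 ≤ Jr := by positivity
  refine ⟨⌊Jr⌋₊, fun τ x hA hB => ?_⟩
  -- the chain at time `n`
  obtain ⟨J, hJ, hs⟩ := U2 B (n + M₀) _ _ hB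
  have hJ' : (J : ℝ) ≤ Jr := by
    refine hJ.trans (le_of_eq ?_)
    rw [hJr, hB']
    push_cast
    rw [mul_add, Real.exp_add]
    ring
  have hs' : Steps g.symm η J (g^[n] (τ 0).val) (g^[n] x) := by
    have h1 := hs.push h.symm hδc hM₀
    have h2 : ∀ w : X, g.symm^[M₀] (g.symm.symm^[n + M₀] w) = g^[n] w := fun w => by
      rw [Nat.add_comm, Function.iterate_add_apply, Homeomorph.symm_symm, iterL]
    rwa [h2, h2] at h1
  -- the path at time `n`
  obtain ⟨τn, hτn'⟩ : ∃ τn : C(I, SM g), ∀ s, (τn s).val = g^[n] (τ s).val :=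
    path_iter (g := g.symm) n τ
  obtain ⟨R, r1, r2, r3, r4⟩ := hTOW X g c c₁ δ η h hc₁ hδ hb τn J (g^[n] x)
    (by rw [hτn']; exact hs') (by
      intro R hR hbot hcol s
      obtain ⟨j, hj, hj2⟩ := hcol 0
      obtain ⟨j', hj', hj2'⟩ := hcol s
      have hR' : Rc g (fun s' t => R (s * s') t) :=
        hR.reparam (a := fun s' => s * s') (b := fun t' => t') (by fun_prop) continuous_id
      obtain ⟨N, n1, n2⟩ := hrow A j j' n k₀ Jr _ hR' (by
          show Steps g δ A (g.symm^[n] (R (s * 0) 0)) (g.symm^[n] (R (s * 1) 0))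
          rw [mul_zero, mul_one, hbot, hbot, hτn', hτn', iterL, iterL]
          exact hA s)
        (le_trans (by exact_mod_cast hj) hJ') (le_trans (by exact_mod_cast hj') hJ') (by
          show Steps g.symm δ j (R (s * 0) 0) (R (s * 0) 1)
          rw [mul_zero]
          exact hj2) (by
          show Steps g.symm δ j' (R (s * 1) 0) (R (s * 1) 1)
          rw [mul_one]
          exact hj2')
      have n3 : Steps g δ N (g.symm^[n + k₀] (R 0 1)) (g.symm^[n + k₀] (R s 1)) := by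
        have e : Steps g δ N (g.symm^[n + k₀] (R (s * 0) 1)) (g.symm^[n + k₀] (R (s * 1) 1)) := n2
        rwa [mul_zero, mul_one] at e
      have hle : D * (N : ℝ) ≤ Real.exp (l * (n + k₀ : ℕ)) := by
        refine le_trans ?_ hnum
        have E0 : 0 ≤ 1 + Jr * Real.exp (-(m * (n + k₀ : ℕ))) + A * Real.exp (L * k₀) := by
          positivity
        have h1 := bound_mono' (C := C) (C' := D * C) (E := 1 + Jr *
          Real.exp (-(m * (n + k₀ : ℕ))) + A * Real.exp (L * k₀)) (k := k) (by linarith)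
          (by nlinarith) E0 (by linarith)
        calc D * (N : ℝ) ≤ D * (C * (C * (1 + Jr * Real.exp (-(m * (n + k₀ : ℕ))) +
              A * Real.exp (L * k₀))) ^ k) := mul_le_mul_of_nonneg_left n1 (by linarith)
          _ = D * C * (C * (1 + Jr * Real.exp (-(m * (n + k₀ : ℕ))) +
              A * Real.exp (L * k₀))) ^ k := by ring
          _ ≤ D * C * (D * C * (1 + Jr * Real.exp (-(m * (n + k₀ : ℕ))) +
              A * Real.exp (L * k₀))) ^ k := mul_le_mul_of_nonneg_left h1 (by positivity)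
          _ = _ := by rw [hJr]
      have h2 := hfine N (n + k₀) _ _ hle n3
      rwa [iterR, iterR] at h2)
  obtain ⟨j, hj, hj2⟩ := r4 1
  refine ⟨fun s t => g.symm^[n] (R s t), r1.iter' n, fun s => ?_, ?_, j, ?_, ?_⟩
  · show g.symm^[n] (R s 0) = _
    rw [r2, hτn', iterL]
  · show g.symm^[n] (R 0 1) = x
    rw [r3, iterL]
  · exact Nat.le_floor ((by exact_mod_cast hj : (j : ℝ) ≤ J).trans hJ')
  · exact steps_shift hj2 n

end

end Pool.Agent.K6.H72.PD
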