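import Pool.Agent.K6.H72.PD.B2
import Pool.Agent.K6.H72.PD.A4

/-!
# Only one distorted foliation: all rectangles exist
-/

set_option autoImplicit false

open Filter Topology Set Metric unitInterval

namespace Pool.Agent.K6.H72.PD

open Pool.Agent.N234.CP Pool.Agent.H789R2.AN Pool.Agent.H789R2.GP Pool.Agent.TH289.K
  Pool.Agent.H721R2 Pool.Agent.Y330.H Pool.Agent.TH289.L

universe u v

section

variable {X : Type u} [MetricSpace X] [CompactSpace X] {Y : Type v} [TopologicalSpace Y]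

/-- all unstable paths slide along all stable displacements -/
theorem lift_one (hNUM : S_NUM2) (hTOW : S_TOW.{u}) (hBOX : S_BOX.{u}) (hUNI : S_UNI.{u, v})
    (hPTH : S_PTH.{u}) {p : C(Y, X)} (hp : IsCoveringMap p)
    (hsur : Function.Surjective p) {ε : ℝ} (hε : 0 < ε) {g : X ≃ₜ X}
    {c : ℝ} (h : LP g c) (hX : ULC X)
    {δ l L m M k : ℝ} (hδ : 0 < δ) (hδc : δ ≤ c) (hl : 0 < l) (hlL : l ≤ L) (hm : 0 < m)
    (hmM : m ≤ M) (hk : 1 ≤ k) (hcond : k * L * (M - m) < l * (L + M)) (hLo1 : LoRate g δ l)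
    (hLo : LoRate g.symm δ m)
    (G2 : Gr g.symm δ m) (U1 : Up g δ L) (U2 : Up g.symm δ M)
    (V1 : Co p {q | dist q.1 q.2 < ε} g δ) (V2 : Co p {q | dist q.1 q.2 < ε} g.symm δ)
    (D1 : Di p {q | dist q.1 q.2 < ε} g δ k) : ∀ a s, WS g a s → Lf g a s := by
  intro a s has υ hυ
  obtain ⟨cb, hcb, -, hbox⟩ := hBOX X g c h hX
  obtain ⟨c₁, hc₁, hs⟩ := exists_sl h
  obtain ⟨τ, hτ0, hτ1⟩ := leaf_conn h hX a s has
  obtain ⟨A, hA, hA'⟩ := hPTH X g δ hδ τ
  obtain ⟨B, hB, hB'⟩ := hPTH X g.symm δ hδ υ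
  obtain ⟨K, hK⟩ := nice hNUM hTOW hp hsur (𝒲 := {q | dist q.1 q.2 < ε}) (fun x => by
      show dist x x < ε
      rw [dist_self]
      exact hε) h hcb hbox hδ hδc hl hlL hm hmM hk hcond hLo1 G2 U1 U2 V1 V2 D1 A B
  obtain ⟨D, hD, hfine⟩ := hLo.fine h.symm hm hδc hc₁
  obtain ⟨n, hn⟩ : ∃ n : ℕ, D * K ≤ Real.exp (m * n) := by
    have h1 : Tendsto (fun n : ℕ => Real.exp (m * n)) atTop atTop :=
      Real.tendsto_exp_atTop.comp (tendsto_natCast_atTop_atTop.const_mul_atTop hm)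
    exact (h1.eventually_ge_atTop (D * K)).exists
  have h0 : (τ 0).val = (υ 0).val := by rw [hτ0, hυ]
  obtain ⟨T, a1, a2, a3⟩ := extend' h hc₁ hs (K := n) υ τ (by
    intro r T hT hb hlft t
    have hT' : Rc g (fun s' t' => T s' (t * t')) :=
      hT.reparam (a := fun s' => s') (b := fun t' => t * t') (by fun_prop) (by fun_prop)
    obtain ⟨R, r1, r2, r3, N, hN, r4⟩ := hK ⟨fun s' => τ (r * s'), by fun_prop⟩ (υ t).val
      (fun s' => hA' _ _) (by
        show Steps g.symm δ B (τ (r * 0)).val (υ t).val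
        rw [mul_zero, h0]
        exact hB' _ _)
    have hbotR : ∀ s', R s' 0 = (τ (r * s')).val := r2
    have e1 : R 1 1 = T 1 (t * 1) := hUNI X Y g c h hX p hp hsur ε δ l k hε hδ hδc hl hLo1 D1 R
      (fun s' t' => T s' (t * t')) r1 hT' (fun s' => by
        show R s' 0 = T s' (t * 0)
        rw [mul_zero, hb, hbotR]) (by
        show R 0 1 = T 0 (t * 1)
        rw [mul_one, hlft, r3])
    have hst' : Steps g.symm δ N (T 1 0) (T 1 t) := by
      rw [mul_one] at e1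
      rw [← e1, hb, ← hbotR]
      exact r4
    refine hfine N n _ _ ?_ hst'
    have hNK : (N : ℝ) ≤ K := by exact_mod_cast hN
    exact (mul_le_mul_of_nonneg_left hNK (by linarith)).trans hn) h0
  obtain ⟨Γ, b1, b2⟩ := a1.strip 0 1
  refine ⟨(Γ 1).y, Γ, ?_, rfl, fun t => by rw [b1, a3]⟩
  rw [b2, a2, hτ1]

/-- all rectangles exist, for an iterate -/
theorem main_metric_one (hNUM : S_NUM2) (hTOW : S_TOW.{u}) (hBOX : S_BOX.{u})
    (hUNI : S_UNI.{u, v}) (hPTH : S_PTH.{u}) (hGRP : S_GRP.{u}) (hUPC : S_UPC.{u})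
    (hRLZ : S_RLZ.{u, v}) (hHLI : S_HLI.{u, v}) {f : X ≃ₜ X} {p : C(Y, X)}
    (hp : IsCoveringMap p) (hsur : Function.Surjective p) (hX : ULC X) {n : ℕ} (hn : 1 ≤ n)
    {c : ℝ} (h : LP (iterHomeo f n) c) {l L m M k : ℝ} (hl : 0 < l) (hlL : l ≤ L)
    (hm : 0 < m) (hmM : m ≤ M) (hk : 1 ≤ k)
    (hcond : k * L * (M - m) < l * (L + M)) (h1 : CoarseContracts f l)
    (h2 : CoarseContracts f.symm m) (h3 : CoarseExpands f L) (h4 : CoarseExpands f.symm M)
    (h5 : PolyDistorted f p k) :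
    ∀ a s, WS (iterHomeo f n) a s → Lf (iterHomeo f n) a s := by
  have hsym : (iterHomeo f n).symm = iterHomeo f.symm n := rfl
  have hc := h.c_pos
  have hs : LP (iterHomeo f.symm n) c := by rw [← hsym]; exact h.symm
  have hn0 : (0 : ℝ) < n := by
    have : (1 : ℝ) ≤ n := by exact_mod_cast hn
    linarith
  obtain ⟨ε, ε0, D1⟩ := di_of h5 hn h
  obtain ⟨d₁, hd₁, V1⟩ := co_of hRLZ hHLI h hX hp ε0
  obtain ⟨d₂, hd₂, V2⟩ := co_of hRLZ hHLI hs hX hp ε0
  obtain ⟨d₃, hd₃, R1⟩ := CoarseContracts.loRate (f := f) h1 hn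
  obtain ⟨d₄, hd₄, R2⟩ := CoarseContracts.loRate (f := f.symm) h2 hn
  obtain ⟨d₅, hd₅, R3⟩ := CoarseExpands.upRate (f := f) h3 hn
  obtain ⟨d₆, hd₆, R4⟩ := CoarseExpands.upRate (f := f.symm) h4 hn
  set δ := min (min (min d₁ d₂) (min d₃ d₄)) (min (min d₅ d₆) c) with hδ
  have δ0 : 0 < δ := by positivity
  have k12 : δ ≤ min d₁ d₂ := (min_le_left _ _).trans (min_le_left _ _)
  have k34 : δ ≤ min d₃ d₄ := (min_le_left _ _).trans (min_le_right _ _)
  have k56 : δ ≤ min d₅ d₆ := (min_le_right _ _).trans (min_le_left _ _)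
  have k7 : δ ≤ c := (min_le_right _ _).trans (min_le_right _ _)
  have k1 := k12.trans (min_le_left _ _)
  have k2 := k12.trans (min_le_right _ _)
  have k3 := k34.trans (min_le_left _ _)
  have k4 := k34.trans (min_le_right _ _)
  have k5 := k56.trans (min_le_left _ _)
  have k6 := k56.trans (min_le_right _ _)
  have p1 : 0 < l * n := by positivity
  have p2 : 0 < m * n := by positivity
  have q1 : l * n ≤ L * n := mul_le_mul_of_nonneg_right hlL hn0.le
  have q2 : m * n ≤ M * n := mul_le_mul_of_nonneg_right hmM hn0.le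
  have hcond' : k * (L * n) * (M * n - m * n) < l * n * (L * n + M * n) := by
    have e : k * (L * n) * (M * n - m * n) = k * L * (M - m) * ((n : ℝ) * n) := by ring
    have e' : l * n * (L * n + M * n) = l * (L + M) * ((n : ℝ) * n) := by ring
    rw [e, e']
    exact mul_lt_mul_of_pos_right hcond (by positivity)
  have r1 := R1 δ δ0 k3
  have r2 := R2 δ δ0 k4
  have r3 := R3 δ δ0 k5
  have r4 := R4 δ δ0 k6
  exact lift_one hNUM hTOW hBOX hUNI hPTH hp hsur ε0 h hX δ0 k7 p1 q1 p2 q2 hk hcond' r1 r2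
    (hGRP X _ δ _ δ0 p2 r2) (hUPC X _ δ _ δ0 r3) (hUPC X _ δ _ δ0 r4)
    (V1 δ k1) (V2 δ k2) (D1 ε le_rfl δ δ0)

end

end Pool.Agent.K6.H72.PD
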