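import Pool.Agent.K6.H72.PD.B3
import Pool.Agent.K6.H72.PD.A5

/-!
# Only one distorted foliation: Anosov diffeomorphisms
-/

set_option autoImplicit false
set_option linter.unusedSectionVars false

open Filter Topology Set Metric
open scoped Manifold ContDiff Pointwise

namespace Pool.Agent.K6.H72.PD

open Pool.Agent.N234.CP Pool.Agent.H721R2 Pool.Agent.H789R2.AN Pool.Agent.H789R2.GP
  Pool.Agent.Y330.J
open Pool.Agent.K6.helper20.CZ
open Pool.Agent.TH289.K (GPS)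

universe u v w

variable {E : Type u} [NormedAddCommGroup E] [NormedSpace ℝ E] [FiniteDimensional ℝ E]
  {M : Type v} [TopologicalSpace M] [T2Space M] [CompactSpace M] [ConnectedSpace M]
  [ChartedSpace E M] [IsManifold 𝓘(ℝ, E) ∞ M]

theorem man_coarse_one (hNUM : S_NUM2) (hTOW : S_TOW.{v}) (hBOX : S_BOX.{v})
    (hUNI : S_UNI.{v, w}) (hPTH : S_PTH.{v}) (hGRP : S_GRP.{v}) (hUPC : S_UPC.{v})
    (hRLZ : S_RLZ.{v, w}) (hHLI : S_HLI.{v, w})
    (f : Diffeomorph 𝓘(ℝ, E) 𝓘(ℝ, E) M M 1)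
    (Es Eu : ∀ x : M, Submodule ℝ (TangentSpace 𝓘(ℝ, E) x)) (hA : IsAnosov f Es Eu)
    {Y : Type w} [TopologicalSpace Y] (p : C(Y, M)) (hp : IsCoveringMap p)
    (hsur : Function.Surjective p) (s S u U k : ℝ) (hs : 0 < s) (hsS : s ≤ S) (hu : 0 < u)
    (huU : u ≤ U) (hk : 1 ≤ k) (hcond : k * S * (U - u) < s * (S + U))
    (h1 : CoarseContracts f s) (h2 : CoarseContracts f.symm u)
    (h3 : CoarseExpands f.toHomeomorph S) (h4 : CoarseExpands f.toHomeomorph.symm U)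
    (h5 : PolyDistorted f.toHomeomorph p k) :
    (∃ q : E → M, IsCoveringMap q ∧ Function.Surjective q) ∧ GPS f.toHomeomorph ∧
      TopTransitive f ∧ Dense (Function.periodicPts f) := by
  obtain ⟨m, e, he, hemb, hinj⟩ := exists_embedding_euclidean_of_compact (I := 𝓘(ℝ, E)) (M := M)
  let _ : MetricSpace M := hemb.isEmbedding.comapMetricSpace e
  have hiso : ∀ x y : M, dist x y = ‖e x - e y‖ := fun x y => dist_eq_norm (e x) (e y)
  have he1 : ContMDiff 𝓘(ℝ, E) (𝓡 m) 1 e := he.of_le (by simp)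
  obtain ⟨C, a, b, Ls, Lu, hE⟩ := eanosov_of_isAnosov e he1 hinj f Es Eu hA
  obtain ⟨n, Sy, hn1, hg, -, -, -, -, -⟩ := exists_sys hiso he1 hinj hE
    (a' := 1) (b' := 1) hE.a_lt hE.b_lt
  obtain ⟨c, hLP⟩ := exists_LP Sy
  have : ProperSpace E := FiniteDimensional.proper_real E
  have hX : ULC M := ulc_of_charted (X := M) (E := E)
  have hLP' : LP (iterHomeo f.toHomeomorph n) c := by rw [← hg]; exact hLP
  have hall : ∀ a s, WS Sy.g a s → Lf Sy.g a s := by
    rw [hg]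
    exact main_metric_one hNUM hTOW hBOX hUNI hPTH hGRP hUPC hRLZ hHLI (f := f.toHomeomorph) hp
      hsur hX hn1 hLP' hs hsS hu huU hk hcond h1 h2 h3 h4 h5
  obtain ⟨a1, a2, q₀, hq₀⟩ := abs_main (E' := E) Qsx.main Sy hLP hall hn1 hg
  have hgi : ∀ x, Sy.g x = f^[n] x := fun x => by rw [hg]; rfl
  refine ⟨⟨q₀, hq₀, covering_surj hq₀⟩, a2, conclude f hgi a1, fun x => ?_⟩
  rw [Metric.mem_closure_iff]
  intro ε hε
  obtain ⟨y, N, hN1, hy, hd⟩ := Pool.Agent.H779R2.An.periodic_dense Sy a1 x ε hε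
  refine ⟨y, ⟨n * N, Nat.mul_pos hn1 hN1, ?_⟩, by rwa [dist_comm]⟩
  rw [Function.IsPeriodicPt, Function.IsFixedPt]
  have h3 : Sy.g^[N] = f^[n * N] := by
    rw [Function.iterate_mul]
    congr 1
    funext x
    exact hgi x
  rw [← h3]
  exact hy

/-- the rates can be changed a little -/
theorem perturb_one {s S u U k : ℝ} (hs : 0 < s) (hu : 0 < u)
    (hcond : k * S * (U - u) < s * (S + U)) :
    ∃ t : ℝ, 0 < t ∧ t < s ∧ t < u ∧
      k * (S + t) * ((U + t) - (u - t)) < (s - t) * ((S + t) + (U + t)) := by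
  have h1 : Continuous fun t : ℝ => k * (S + t) * ((U + t) - (u - t)) := by fun_prop
  have h2 : Continuous fun t : ℝ => (s - t) * ((S + t) + (U + t)) := by fun_prop
  have h3 : ∀ᶠ t : ℝ in 𝓝 0, k * (S + t) * ((U + t) - (u - t)) <
      (s - t) * ((S + t) + (U + t)) :=
    (h1.tendsto 0).eventually_lt (h2.tendsto 0) (by simpa using hcond)
  have h4 : ∀ᶠ t : ℝ in 𝓝[>] 0, t ∈ Set.Ioo 0 (min s u) := Ioo_mem_nhdsGT (lt_min hs hu)
  obtain ⟨t, h5, h6⟩ := ((h3.filter_mono nhdsWithin_le_nhds).and h4).exists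
  exact ⟨t, h6.1, h6.2.trans_le (min_le_left _ _), h6.2.trans_le (min_le_right _ _), h5⟩

theorem man_rates_one (hNUM : S_NUM2) (hTOW : S_TOW.{v}) (hBOX : S_BOX.{v})
    (hUNI : S_UNI.{v, w}) (hPTH : S_PTH.{v}) (hGRP : S_GRP.{v}) (hUPC : S_UPC.{v})
    (hRLZ : S_RLZ.{v, w}) (hHLI : S_HLI.{v, w})
    (f : Diffeomorph 𝓘(ℝ, E) 𝓘(ℝ, E) M M 1)
    (Es Eu : ∀ x : M, Submodule ℝ (TangentSpace 𝓘(ℝ, E) x)) (hA : IsAnosov f Es Eu)
    {Y : Type w} [TopologicalSpace Y] (p : C(Y, M)) (hp : IsCoveringMap p)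
    (hsur : Function.Surjective p) (s S u U k : ℝ) (hs : 0 < s) (hsS : s ≤ S) (hu : 0 < u)
    (huU : u ≤ U) (hk : 1 ≤ k) (hcond : k * S * (U - u) < s * (S + U))
    (h1 : ContractsAt f Es s) (h2 : ContractsAt f.symm Eu u)
    (h3 : ContractsAt f.symm Es (-S)) (h4 : ContractsAt f Eu (-U))
    (h5 : PolyDistorted f.toHomeomorph p k) :
    (∃ q : E → M, IsCoveringMap q ∧ Function.Surjective q) ∧ GPS f.toHomeomorph ∧
      TopTransitive f ∧ Dense (Function.periodicPts f) := by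
  obtain ⟨t, t0, ts, tu, hc⟩ := perturb_one hs hu hcond
  have hAs := Pool.Agent.W740.TU.anosov_symm f Es Eu hA
  have c1 : CoarseContracts f (s - t) :=
    coarse_of_contractsAt f Es Eu hA s h1 (s - t) (by linarith) (by linarith)
  have c2 : CoarseContracts f.symm (u - t) :=
    coarse_of_contractsAt f.symm Eu Es hAs u h2 (u - t) (by linarith) (by linarith)
  have c3 : CoarseExpands f.toHomeomorph (S + t) :=
    expandsAlong_of_deriv f Es Eu hA f.symm (fun x => by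
      rw [f.symm_apply_apply, f.apply_symm_apply]) S (S + t) (by linarith) (by linarith) h3
  have c4 : CoarseExpands f.toHomeomorph.symm (U + t) :=
    expandsAlong_of_deriv f.symm Eu Es hAs f (fun x => by
      rw [f.symm_apply_apply, f.apply_symm_apply]) U (U + t) (by linarith) (by linarith) h4
  exact man_coarse_one hNUM hTOW hBOX hUNI hPTH hGRP hUPC hRLZ hHLI f Es Eu hA p hp hsur (s - t)
    (S + t) (u - t) (U + t) k (by linarith) (by linarith) (by linarith) (by linarith) hk hc c1 c2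
    c3 c4 h5

end Pool.Agent.K6.H72.PD
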