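import Pool.Agent.K6.H72.PD.B4
import Pool.Agent.TH289.K.A6

/-!
# Distortion against rates: all cases
-/

set_option autoImplicit false
set_option linter.unusedSectionVars false

open Filter Topology Set Metric
open scoped Manifold ContDiff Pointwise

namespace Pool.Agent.K6.H72.PD

open Pool.Agent.N234.CP Pool.Agent.H721R2 Pool.Agent.H789R2.AN Pool.Agent.H789R2.GP
  Pool.Agent.Y330.J
open Pool.Agent.K6.helper20.CZ
open Pool.Agent.TH289.K (GPS)

universe u v w

/-- no distorted foliation: Brin's pinching, for an iterate -/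
theorem main_metric_zero {X : Type v} [MetricSpace X] [CompactSpace X] {f : X ≃ₜ X} {n : ℕ}
    (hn : 1 ≤ n) {c : ℝ} (h : LP (iterHomeo f n) c) {l L m M : ℝ} (hl : 0 < l) (hlL : l ≤ L)
    (hm : 0 < m) (hmM : m ≤ M) (hcond : (L - l) * (M - m) < l * m) (h1 : CoarseContracts f l)
    (h2 : CoarseContracts f.symm m) (h3 : CoarseExpands f L) (h4 : CoarseExpands f.symm M) :
    ∀ a s, WS (iterHomeo f n) a s → Lf (iterHomeo f n) a s := by
  have hc := h.c_pos
  have hn0 : (0 : ℝ) < n := by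
    have : (1 : ℝ) ≤ n := by exact_mod_cast hn
    linarith
  obtain ⟨d₃, hd₃, R1⟩ := CoarseContracts.loRate (f := f) h1 hn
  obtain ⟨d₄, hd₄, R2⟩ := CoarseContracts.loRate (f := f.symm) h2 hn
  obtain ⟨d₅, hd₅, R3⟩ := CoarseExpands.upRate (f := f) h3 hn
  obtain ⟨d₆, hd₆, R4⟩ := CoarseExpands.upRate (f := f.symm) h4 hn
  set δ := min (min d₃ d₄) (min (min d₅ d₆) c) with hδ
  have δ0 : 0 < δ := by positivity
  have k34 : δ ≤ min d₃ d₄ := min_le_left _ _
  have k56 : δ ≤ min d₅ d₆ := (min_le_right _ _).trans (min_le_left _ _)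
  have k7 : δ ≤ c := (min_le_right _ _).trans (min_le_right _ _)
  have p1 : 0 < l * n := by positivity
  have p2 : 0 < m * n := by positivity
  have q1 : l * n ≤ L * n := mul_le_mul_of_nonneg_right hlL hn0.le
  have q2 : m * n ≤ M * n := mul_le_mul_of_nonneg_right hmM hn0.le
  have hcond' : (L * n - l * n) * (M * n - m * n) < l * n * (m * n) := by
    have e : (L * n - l * n) * (M * n - m * n) = (L - l) * (M - m) * ((n : ℝ) * n) := by ring
    have e' : l * n * (m * n) = l * m * ((n : ℝ) * n) := by ring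
    rw [e, e']
    exact mul_lt_mul_of_pos_right hcond (by positivity)
  exact lift_all h δ0 k7 p1 q1 p2 q2 hcond' (R3 δ δ0 (k56.trans (min_le_left _ _)))
    (R1 δ δ0 (k34.trans (min_le_left _ _))) (R4 δ δ0 (k56.trans (min_le_right _ _)))
    (R2 δ δ0 (k34.trans (min_le_right _ _)))

variable {E : Type u} [NormedAddCommGroup E] [NormedSpace ℝ E] [FiniteDimensional ℝ E]
  {M : Type v} [TopologicalSpace M] [T2Space M] [CompactSpace M] [ConnectedSpace M]
  [ChartedSpace E M] [IsManifold 𝓘(ℝ, E) ∞ M]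

theorem man_coarse_zero
    (f : Diffeomorph 𝓘(ℝ, E) 𝓘(ℝ, E) M M 1)
    (Es Eu : ∀ x : M, Submodule ℝ (TangentSpace 𝓘(ℝ, E) x)) (hA : IsAnosov f Es Eu)
    (s S u U : ℝ) (hs : 0 < s) (hsS : s ≤ S) (hu : 0 < u)
    (huU : u ≤ U) (hcond : (S - s) * (U - u) < s * u)
    (h1 : CoarseContracts f s) (h2 : CoarseContracts f.symm u)
    (h3 : CoarseExpands f.toHomeomorph S) (h4 : CoarseExpands f.toHomeomorph.symm U) :
    (∃ q : E → M, IsCoveringMap q ∧ Function.Surjective q) ∧ GPS f.toHomeomorph ∧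
      TopTransitive f ∧ Dense (Function.periodicPts f) := by
  obtain ⟨m, e, he, hemb, hinj⟩ := exists_embedding_euclidean_of_compact (I := 𝓘(ℝ, E)) (M := M)
  let _ : MetricSpace M := hemb.isEmbedding.comapMetricSpace e
  have hiso : ∀ x y : M, dist x y = ‖e x - e y‖ := fun x y => dist_eq_norm (e x) (e y)
  have he1 : ContMDiff 𝓘(ℝ, E) (𝓡 m) 1 e := he.of_le (by simp)
  obtain ⟨C, a, b, Ls, Lu, hE⟩ := eanosov_of_isAnosov e he1 hinj f Es Eu hA
  obtain ⟨n, Sy, hn1, hg, -, -, -, -, -⟩ := exists_sys hiso he1 hinj hE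
    (a' := 1) (b' := 1) hE.a_lt hE.b_lt
  obtain ⟨c, hLP⟩ := exists_LP Sy
  have hLP' : LP (iterHomeo f.toHomeomorph n) c := by rw [← hg]; exact hLP
  have hall : ∀ a s, WS Sy.g a s → Lf Sy.g a s := by
    rw [hg]
    exact main_metric_zero (f := f.toHomeomorph) hn1 hLP' hs hsS hu huU hcond h1 h2 h3 h4
  obtain ⟨a1, a2, q₀, hq₀⟩ := abs_main (E' := E) Qsx.main Sy hLP hall hn1 hg
  have hgi : ∀ x, Sy.g x = f^[n] x := fun x => by rw [hg]; rfl
  refine ⟨⟨q₀, hq₀, covering_surj hq₀⟩, a2, conclude f hgi a1, fun x => ?_⟩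
  rw [Metric.mem_closure_iff]
  intro ε hε
  obtain ⟨y, N, hN1, hy, hd⟩ := Pool.Agent.H779R2.An.periodic_dense Sy a1 x ε hε
  refine ⟨y, ⟨n * N, Nat.mul_pos hn1 hN1, ?_⟩, by rwa [dist_comm]⟩
  rw [Function.IsPeriodicPt, Function.IsFixedPt]
  have h3 : Sy.g^[N] = f^[n * N] := by
    rw [Function.iterate_mul]
    congr 1
    funext x
    exact hgi x
  rw [← h3]
  exact hy

theorem periodic_symm (f : Diffeomorph 𝓘(ℝ, E) 𝓘(ℝ, E) M M 1)
    (h : Dense (Function.periodicPts f.symm)) : Dense (Function.periodicPts f) := by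
  refine h.mono ?_
  rintro x ⟨n, hn, hx⟩
  refine ⟨n, hn, ?_⟩
  have hl : Function.LeftInverse f f.symm := f.apply_symm_apply
  have h1 : f^[n] (f.symm^[n] x) = x := hl.iterate n x
  have h2 : f.symm^[n] x = x := hx
  show f^[n] x = x
  rwa [h2] at h1

/-- all cases, coarse rates -/
theorem man_all (hNUM1 : S_NUM) (hNUM : S_NUM2) (hTOW : S_TOW.{v}) (hBOX : S_BOX.{v})
    (hUNI : S_UNI.{v, w}) (hPTH : S_PTH.{v}) (hGRP : S_GRP.{v}) (hUPC : S_UPC.{v})
    (hRLZ : S_RLZ.{v, w}) (hHLI : S_HLI.{v, w})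
    (f : Diffeomorph 𝓘(ℝ, E) 𝓘(ℝ, E) M M 1)
    (Es Eu : ∀ x : M, Submodule ℝ (TangentSpace 𝓘(ℝ, E) x)) (hA : IsAnosov f Es Eu)
    {Y : Type w} [TopologicalSpace Y] (p : C(Y, M)) (hp : IsCoveringMap p)
    (hsur : Function.Surjective p) (s S u U α β : ℝ) (hs : 0 < s) (hsS : s ≤ S) (hu : 0 < u)
    (huU : u ≤ U)
    (hα : α = (U - u) / s ∨ ∃ k, 1 ≤ k ∧ PolyDistorted f.toHomeomorph.symm p k ∧
      α = (k * U - u) / (s + U))
    (hβ : β = (S - s) / u ∨ ∃ k, 1 ≤ k ∧ PolyDistorted f.toHomeomorph p k ∧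
      β = (k * S - s) / (u + S))
    (hαβ : α * β < 1)
    (h1 : CoarseContracts f s) (h2 : CoarseContracts f.symm u)
    (h3 : CoarseExpands f.toHomeomorph S) (h4 : CoarseExpands f.toHomeomorph.symm U) :
    (∃ q : E → M, IsCoveringMap q ∧ Function.Surjective q) ∧ GPS f.toHomeomorph ∧
      TopTransitive f ∧ Dense (Function.periodicPts f) := by
  have hS : 0 < S := hs.trans_le hsS
  have hU : 0 < U := hu.trans_le huU
  rcases hα with hα | ⟨ku, hku, hDu, hα⟩
  · rcases hβ with hβ | ⟨ks, hks, hDs, hβ⟩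
    · refine man_coarse_zero f Es Eu hA s S u U hs hsS hu huU ?_ h1 h2 h3 h4
      rw [hα, hβ, div_mul_div_comm, div_lt_one (by positivity)] at hαβ
      linarith
    · refine man_coarse_one hNUM hTOW hBOX hUNI hPTH hGRP hUPC hRLZ hHLI f Es Eu hA p hp hsur
        s S u U ks hs hsS hu huU hks ?_ h1 h2 h3 h4 hDs
      rw [hα, hβ, div_mul_div_comm, div_lt_one (by positivity)] at hαβ
      nlinarith
  · rcases hβ with hβ | ⟨ks, hks, hDs, hβ⟩
    · have hAs := Pool.Agent.W740.TU.anosov_symm f Es Eu hA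
      obtain ⟨a1, a2, a3, a4⟩ := man_coarse_one hNUM hTOW hBOX hUNI hPTH hGRP hUPC hRLZ hHLI
        f.symm Eu Es hAs p hp hsur u U s S ku hu huU hs hsS hku (by
          rw [hα, hβ, div_mul_div_comm, div_lt_one (by positivity)] at hαβ
          nlinarith) h2 h1 h4 h3 hDu
      exact ⟨a1, Pool.Agent.TH289.K.GPS.symm a2,
        Pool.Agent.W740.TU.transitive_symm f.toHomeomorph a3, periodic_symm f a4⟩
    · refine man_coarse hNUM1 hPTH hGRP hUPC hRLZ hHLI f Es Eu hA p hp hsur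
        s S u U ks ku hs hsS hu huU hks hku ?_ h1 h2 h3 h4 hDs hDu
      rw [hα, hβ, div_mul_div_comm, div_lt_one (by positivity)] at hαβ
      exact hαβ

end Pool.Agent.K6.H72.PD
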