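import Pool.Agent.K6.H72.PD.B5

/-!
# Distortion against rates: all cases, rates of the derivative
-/

set_option autoImplicit false
set_option linter.unusedSectionVars false

open Filter Topology Set Metric
open scoped Manifold ContDiff Pointwise

namespace Pool.Agent.K6.H72.PD

open Pool.Agent.N234.CP Pool.Agent.H721R2 Pool.Agent.H789R2.AN Pool.Agent.H789R2.GP
  Pool.Agent.Y330.J
open Pool.Agent.K6.helper20.CZ
open Pool.Agent.TH289.K (GPS)

universe u v w

variable {E : Type u} [NormedAddCommGroup E] [NormedSpace ℝ E] [FiniteDimensional ℝ E]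
  {M : Type v} [TopologicalSpace M] [T2Space M] [CompactSpace M] [ConnectedSpace M]
  [ChartedSpace E M] [IsManifold 𝓘(ℝ, E) ∞ M]

/-- the rates can be changed a little -/
theorem perturb_zero {s S u U : ℝ} (hs : 0 < s) (hu : 0 < u)
    (hcond : (S - s) * (U - u) < s * u) :
    ∃ t : ℝ, 0 < t ∧ t < s ∧ t < u ∧
      ((S + t) - (s - t)) * ((U + t) - (u - t)) < (s - t) * (u - t) := by
  have h1 : Continuous fun t : ℝ => ((S + t) - (s - t)) * ((U + t) - (u - t)) := by fun_prop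
  have h2 : Continuous fun t : ℝ => (s - t) * (u - t) := by fun_prop
  have h3 : ∀ᶠ t : ℝ in 𝓝 0, ((S + t) - (s - t)) * ((U + t) - (u - t)) < (s - t) * (u - t) :=
    (h1.tendsto 0).eventually_lt (h2.tendsto 0) (by simpa using hcond)
  have h4 : ∀ᶠ t : ℝ in 𝓝[>] 0, t ∈ Set.Ioo 0 (min s u) := Ioo_mem_nhdsGT (lt_min hs hu)
  obtain ⟨t, h5, h6⟩ := ((h3.filter_mono nhdsWithin_le_nhds).and h4).exists
  exact ⟨t, h6.1, h6.2.trans_le (min_le_left _ _), h6.2.trans_le (min_le_right _ _), h5⟩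

theorem man_rates_zero
    (f : Diffeomorph 𝓘(ℝ, E) 𝓘(ℝ, E) M M 1)
    (Es Eu : ∀ x : M, Submodule ℝ (TangentSpace 𝓘(ℝ, E) x)) (hA : IsAnosov f Es Eu)
    (s S u U : ℝ) (hs : 0 < s) (hsS : s ≤ S) (hu : 0 < u)
    (huU : u ≤ U) (hcond : (S - s) * (U - u) < s * u)
    (h1 : ContractsAt f Es s) (h2 : ContractsAt f.symm Eu u)
    (h3 : ContractsAt f.symm Es (-S)) (h4 : ContractsAt f Eu (-U)) :
    (∃ q : E → M, IsCoveringMap q ∧ Function.Surjective q) ∧ GPS f.toHomeomorph ∧
      TopTransitive f ∧ Dense (Function.periodicPts f) := by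
  obtain ⟨t, t0, ts, tu, hc⟩ := perturb_zero hs hu hcond
  have hAs := Pool.Agent.W740.TU.anosov_symm f Es Eu hA
  have c1 : CoarseContracts f (s - t) :=
    coarse_of_contractsAt f Es Eu hA s h1 (s - t) (by linarith) (by linarith)
  have c2 : CoarseContracts f.symm (u - t) :=
    coarse_of_contractsAt f.symm Eu Es hAs u h2 (u - t) (by linarith) (by linarith)
  have c3 : CoarseExpands f.toHomeomorph (S + t) :=
    expandsAlong_of_deriv f Es Eu hA f.symm (fun x => by
      rw [f.symm_apply_apply, f.apply_symm_apply]) S (S + t) (by linarith) (by linarith) h3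
  have c4 : CoarseExpands f.toHomeomorph.symm (U + t) :=
    expandsAlong_of_deriv f.symm Eu Es hAs f (fun x => by
      rw [f.symm_apply_apply, f.apply_symm_apply]) U (U + t) (by linarith) (by linarith) h4
  exact man_coarse_zero f Es Eu hA (s - t) (S + t) (u - t) (U + t) (by linarith) (by linarith)
    (by linarith) (by linarith) hc c1 c2 c3 c4

/-- all cases, rates of the derivative -/
theorem man_rates_all (hNUM1 : S_NUM) (hNUM : S_NUM2) (hTOW : S_TOW.{v}) (hBOX : S_BOX.{v})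
    (hUNI : S_UNI.{v, w}) (hPTH : S_PTH.{v}) (hGRP : S_GRP.{v}) (hUPC : S_UPC.{v})
    (hRLZ : S_RLZ.{v, w}) (hHLI : S_HLI.{v, w})
    (f : Diffeomorph 𝓘(ℝ, E) 𝓘(ℝ, E) M M 1)
    (Es Eu : ∀ x : M, Submodule ℝ (TangentSpace 𝓘(ℝ, E) x)) (hA : IsAnosov f Es Eu)
    {Y : Type w} [TopologicalSpace Y] (p : C(Y, M)) (hp : IsCoveringMap p)
    (hsur : Function.Surjective p) (s S u U α β : ℝ) (hs : 0 < s) (hsS : s ≤ S) (hu : 0 < u)
    (huU : u ≤ U)
    (hα : α = (U - u) / s ∨ ∃ k, 1 ≤ k ∧ PolyDistorted f.toHomeomorph.symm p k ∧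
      α = (k * U - u) / (s + U))
    (hβ : β = (S - s) / u ∨ ∃ k, 1 ≤ k ∧ PolyDistorted f.toHomeomorph p k ∧
      β = (k * S - s) / (u + S))
    (hαβ : α * β < 1)
    (h1 : ContractsAt f Es s) (h2 : ContractsAt f.symm Eu u)
    (h3 : ContractsAt f.symm Es (-S)) (h4 : ContractsAt f Eu (-U)) :
    (∃ q : E → M, IsCoveringMap q ∧ Function.Surjective q) ∧ GPS f.toHomeomorph ∧
      TopTransitive f ∧ Dense (Function.periodicPts f) := by
  have hS : 0 < S := hs.trans_le hsS
  have hU : 0 < U := hu.trans_le huU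
  rcases hα with hα | ⟨ku, hku, hDu, hα⟩
  · rcases hβ with hβ | ⟨ks, hks, hDs, hβ⟩
    · refine man_rates_zero f Es Eu hA s S u U hs hsS hu huU ?_ h1 h2 h3 h4
      rw [hα, hβ, div_mul_div_comm, div_lt_one (by positivity)] at hαβ
      linarith
    · refine man_rates_one hNUM hTOW hBOX hUNI hPTH hGRP hUPC hRLZ hHLI f Es Eu hA p hp hsur
        s S u U ks hs hsS hu huU hks ?_ h1 h2 h3 h4 hDs
      rw [hα, hβ, div_mul_div_comm, div_lt_one (by positivity)] at hαβ
      nlinarith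
  · rcases hβ with hβ | ⟨ks, hks, hDs, hβ⟩
    · have hAs := Pool.Agent.W740.TU.anosov_symm f Es Eu hA
      obtain ⟨a1, a2, a3, a4⟩ := man_rates_one hNUM hTOW hBOX hUNI hPTH hGRP hUPC hRLZ hHLI
        f.symm Eu Es hAs p hp hsur u U s S ku hu huU hs hsS hku (by
          rw [hα, hβ, div_mul_div_comm, div_lt_one (by positivity)] at hαβ
          nlinarith) h2 h1 h4 h3 hDu
      exact ⟨a1, Pool.Agent.TH289.K.GPS.symm a2,
        Pool.Agent.W740.TU.transitive_symm f.toHomeomorph a3, periodic_symm f a4⟩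
    · refine man_rates hNUM1 hPTH hGRP hUPC hRLZ hHLI f Es Eu hA p hp hsur
        s S u U ks ku hs hsS hu huU hks hku ?_ h1 h2 h3 h4 hDs hDu
      rw [hα, hβ, div_mul_div_comm, div_lt_one (by positivity)] at hαβ
      exact hαβ

end Pool.Agent.K6.H72.PD
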