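import Pool.Agent.K6.H72.PD.Stm2
import Pool.Agent.H789R2.GP.LeafP

/-!
# Piece BOX: thin rectangles exist (helper70, for helper72)
-/

set_option autoImplicit false

open Filter Topology Set Metric unitInterval

namespace Pool.Agent.K6.H72.PD

open Pool.Agent.N234.CP Pool.Agent.H789R2.AN Pool.Agent.H789R2.GP Pool.Agent.TH289.K
  Pool.Agent.H721R2 Pool.Agent.Y330.H Pool.Agent.TH289.L

universe u

theorem t_BOX : S_BOX.{u} := by
  intro X _ _ g c hg hX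
  obtain ⟨c₂, hc₂, hs₂⟩ := exists_sl hg.symm
  have hc := hg.c_pos
  have hc₁ : 0 < min c₂ c := lt_min hc₂ hc
  have hs' : Sl g.symm c (min c₂ c) := hs₂.mono (min_le_left _ _)
  refine ⟨min c₂ c, hc₁, min_le_right _ _, fun e he => ?_⟩
  obtain ⟨η', hη', hsl⟩ := hs'.tr e he 0
  obtain ⟨η, hη, hpath⟩ := leaf_path hg.symm hX η' hη'
  refine ⟨η, hη, fun τ w hτ hw => ?_⟩
  obtain ⟨v, hv0, hv1, hv⟩ := hpath ⟨(τ 0).val⟩ ⟨w⟩ ((SM.dist_le _ _ hη.le).2 hw)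
  have hΔ : ∀ t, ∃ Δ : C(I, Pr g.symm), (Δ 0).y = (v t).val ∧ (∀ s, (Δ s).x = (τ s).val) ∧
      ∀ s, SR g.symm e (τ s).val (Δ s).y := by
    intro t
    obtain ⟨Γ, a1, a2, a3, -⟩ := hsl τ (v t).val ((SM.dist_le _ _ hη'.le).1 (hv t))
      (fun s => hτ s)
    exact ⟨Γ, a1, a2, a3⟩
  have hτv : (τ 0).val = (v 0).val := by rw [hv0]
  obtain ⟨R, b1, b2, b3⟩ := rc_of_strips' hg hc₁ hs' τ v hτv
    (fun t => by
      obtain ⟨Δ, d1, d2, -⟩ := hΔ t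
      exact ⟨Δ, d1, d2⟩)
  refine ⟨R, b1, b2, ?_, fun s => ?_⟩
  · rw [b3, hv1]
  · obtain ⟨Δ, d1, d2, d3⟩ := hΔ 1
    obtain ⟨Γ, e1, e2⟩ := b1.tr.strip 0 1
    have h := strip_unique hg.symm Γ Δ (fun t => by rw [e1, d2]; exact b2 t) (t₀ := 0)
      (by rw [e2, d1]; exact b3 1) s
    have h3 := d3 s
    rw [← h, e2] at h3
    rw [b2]
    exact h3

end Pool.Agent.K6.H72.PD
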