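import Pool.Agent.K6.H72.PD.Stm2
import Pool.Agent.H789R2.GP.LeafP

/-!
# Thin rectangles
-/

set_option autoImplicit false

open Filter Topology Set Metric unitInterval

namespace Pool.Agent.K6.H72.PD

open Pool.Agent.N234.CP Pool.Agent.H789R2.AN Pool.Agent.H789R2.GP Pool.Agent.TH289.K
  Pool.Agent.H721R2 Pool.Agent.Y330.H Pool.Agent.TH289.L

theorem box_all.{u} : S_BOX.{u} := by
  intro X _ _ g c h hX
  have hc := h.c_pos
  obtain ⟨c₀, hc₀, hs₀⟩ := exists_sl h.symm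
  have hc₁ : 0 < min c₀ c := lt_min hc₀ hc
  have hs : Sl g.symm c (min c₀ c) := hs₀.mono (min_le_left _ _)
  refine ⟨min c₀ c, hc₁, min_le_right _ _, fun e he => ?_⟩
  obtain ⟨η₁, hη₁, hsl⟩ := hs.tr e he 0
  obtain ⟨η, hη, hpath⟩ := leaf_path h.symm hX η₁ hη₁
  refine ⟨η, hη, fun τ w hτ hw => ?_⟩
  obtain ⟨v, v0, v1, hv⟩ := hpath ⟨(τ 0).val⟩ ⟨w⟩ ((SM.dist_le _ _ hη.le).2 hw)
  have hsr : ∀ t, SR g.symm η₁ (τ 0).val (v t).val := fun t =>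
    (SM.dist_le _ _ hη₁.le).1 (hv t)
  choose D d1 d2 d3 d4 using fun t => hsl τ (v t).val (hsr t) (fun s => hτ s)
  obtain ⟨R, r1, r2, r3⟩ := rc_of_strips' h hc₁ hs τ v (by rw [v0])
    (fun t => ⟨D t, d1 t, d2 t⟩)
  refine ⟨R, r1, r2, by rw [r3, v1], fun s => ?_⟩
  obtain ⟨Γ, g1, g2⟩ := r1.tr.strip 0 1
  have h5 := strip_unique h.symm Γ (D 1) (fun s => by rw [g1, d2, r2]) (t₀ := 0)
    (by rw [g2, d1, r3]) s
  rw [r2, ← g2 s, h5]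
  exact d3 1 s

end Pool.Agent.K6.H72.PD
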