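import Pool.Agent.K6.H72.PD.Stm

/-!
# Chains of steps shrink at the lower rate
-/

set_option autoImplicit false

open Filter Topology Set Metric unitInterval

namespace Pool.Agent.K6.H72.PD

open Pool.Agent.N234.CP Pool.Agent.H789R2.AN Pool.Agent.H789R2.GP Pool.Agent.TH289.K
  Pool.Agent.H721R2

theorem grp_steps.{u} : S_GRP.{u} := by
  intro X _ g δ l hδ hl hLo
  obtain ⟨C, hC, h1⟩ := hLo
  refine ⟨max 1 (2 * C), le_max_left _ _, fun N n x y hs => ?_⟩
  obtain ⟨z, z0, zN, hz⟩ := hs
  set E := Real.exp (l * n) with hE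
  have E0 : 0 < E := Real.exp_pos _
  have hEinv : Real.exp (-(l * n)) = E⁻¹ := by rw [Real.exp_neg]
  have hN0 : (0 : ℝ) ≤ N := Nat.cast_nonneg _
  rw [hEinv]
  by_cases hb : E < C
  · refine ⟨N, ?_, fun i => g^[n] (z i), congrArg _ z0, congrArg _ zN, fun i hi k => ?_⟩
    · have h2 : 1 ≤ max 1 (2 * C) * E⁻¹ := by
        rw [← div_eq_mul_inv, le_div_iff₀ E0, one_mul]
        exact (hb.le.trans (by linarith)).trans (le_max_right _ _)
      have h3 := mul_le_mul_of_nonneg_left h2 hN0
      have h4 : max 1 (2 * C) * N * E⁻¹ = N * (max 1 (2 * C) * E⁻¹) := by ring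
      rw [h4]
      linarith
    · rw [← Function.iterate_add_apply, ← Function.iterate_add_apply]
      exact hz i hi (k + n)
  · push Not at hb
    have ht : 1 ≤ E / C := by rwa [le_div_iff₀ hC, one_mul]
    set b := ⌊E / C⌋₊ with hbdef
    have hb1 : 1 ≤ b := Nat.one_le_floor_iff (E / C) |>.2 ht
    have hb1' : (1 : ℝ) ≤ b := by exact_mod_cast hb1
    have hble : (b : ℝ) ≤ E / C := Nat.floor_le (by linarith)
    have hblt : E / C < b + 1 := Nat.lt_floor_add_one _
    have hCb : C * b ≤ E := by
      have := mul_le_mul_of_nonneg_left hble hC.le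
      rwa [mul_div_cancel₀ _ hC.ne'] at this
    refine ⟨N / b + 1, ?_, fun i => g^[n] (z (min (i * b) N)), ?_, ?_, fun i hi => ?_⟩
    · push_cast
      have h2 : ((N / b : ℕ) : ℝ) ≤ N / b := Nat.cast_div_le
      have h3 : (N : ℝ) / b ≤ max 1 (2 * C) * N * E⁻¹ := by
        rw [div_le_iff₀ (by linarith)]
        have h4 : 1 ≤ 2 * C * E⁻¹ * b := by
          have h5 : E / C ≤ 2 * b := by linarith
          rw [div_le_iff₀ hC] at h5
          have h6 : 2 * C * E⁻¹ * b = (2 * b * C) / E := by
            field_simp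
          rw [h6, le_div_iff₀ E0, one_mul]
          exact h5
        have h7 : 2 * C * N * E⁻¹ * b ≤ max 1 (2 * C) * N * E⁻¹ * b := by
          have := le_max_right 1 (2 * C)
          gcongr
        have h8 : 2 * C * N * E⁻¹ * b = N * (2 * C * E⁻¹ * b) := by ring
        have h9 := mul_le_mul_of_nonneg_left h4 hN0
        linarith
      linarith
    · show g^[n] (z (min (0 * b) N)) = g^[n] x
      rw [Nat.zero_mul, Nat.zero_min, z0]
    · show g^[n] (z (min ((N / b + 1) * b) N)) = g^[n] y
      have h2 : N ≤ (N / b + 1) * b := by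
        have h3 := Nat.div_add_mod N b
        have h4 := Nat.mod_lt N (by omega : 0 < b)
        nlinarith
      rw [Nat.min_eq_right h2, zN]
    · set p := min (i * b) N with hp
      set q := min ((i + 1) * b) N with hq
      have hpq : p ≤ q := by
        rw [hp, hq]
        exact min_le_min_right _ (Nat.mul_le_mul_right _ (by omega))
      have hqp : q - p ≤ b := by
        have h2 : (i + 1) * b = i * b + b := by ring
        rw [hp, hq, h2]
        omega
      have hqN : q ≤ N := min_le_right _ _
      refine h1 (q - p) n (z p) (z q) ?_ ⟨fun j => z (p + j), rfl, ?_, fun j hj => ?_⟩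
      · have h2 : ((q - p : ℕ) : ℝ) ≤ b := by exact_mod_cast hqp
        exact (mul_le_mul_of_nonneg_left h2 hC.le).trans hCb
      · show z (p + (q - p)) = z q
        rw [Nat.add_sub_cancel' hpq]
      · exact hz (p + j) (by omega)

end Pool.Agent.K6.H72.PD
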