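import Pool.Agent.K6.H72.PD.Stm

set_option autoImplicit false

/-!
# Lifts of stable paths with the same end points have the same end points (helper13)
-/

open Filter Topology Set Metric unitInterval

namespace Pool.Agent.K6.H72.PD

open Pool.Agent.N234.CP Pool.Agent.H789R2.AN Pool.Agent.H789R2.GP Pool.Agent.TH289.K
  Pool.Agent.H721R2

theorem t_HLI.{u, v} : S_HLI.{u, v} := by
  intro X Y _ _ _ g c h hX p hp γ γ' υ υ' hγ hγ' h0 h1
  have hυ0 : υ 0 = υ' 0 := by
    apply SM.ext
    rw [← hγ 0, ← hγ' 0, h0]
  obtain ⟨H, H0, H1, H2, H3⟩ := leaf_homotopy h hX υ υ' hυ0 h1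
  let val : C(SM g, X) := ⟨fun z => z.val, SM.continuous_iter_val 0⟩
  let F : (val.comp υ).HomotopyRel (val.comp υ') {0, 1} :=
    { toFun := fun q => val (H q)
      continuous_toFun := val.continuous.comp H.continuous
      map_zero_left := fun t => congrArg val (H0 t)
      map_one_left := fun t => congrArg val (H1 t)
      prop' := by
        intro t y hy
        rcases hy with hy | hy
        · subst hy
          exact congrArg val (H2 t)
        · rw [Set.mem_singleton_iff] at hy
          subst hy
          exact congrArg val (H3 t) }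
  have e0 : (val.comp υ) 0 = p (γ 0) := (hγ 0).symm
  have e1 : (val.comp υ') 0 = p (γ 0) := by
    rw [h0]
    exact (hγ' 0).symm
  have k0 : γ = hp.liftPath (val.comp υ) (γ 0) e0 :=
    (hp.eq_liftPath_iff' e0).2 ⟨funext fun t => hγ t, rfl⟩
  have k1 : γ' = hp.liftPath (val.comp υ') (γ 0) e1 :=
    (hp.eq_liftPath_iff' e1).2 ⟨funext fun t => hγ' t, h0.symm⟩
  have key := hp.liftPath_apply_one_eq_of_homotopicRel ⟨F⟩ (γ 0) e0 e1
  rw [← k0, ← k1] at key
  exact key

end Pool.Agent.K6.H72.PD
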