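import Pool.Agent.K6.H72.PD.Stm

/-! # Piece NUM (helper78): the numerical lemma -/

set_option autoImplicit false

namespace Pool.Agent.K6.H72.PD

namespace NUM

/-- one half of the numerical lemma -/
lemma half (l m M ku C : ℝ) (hl : 0 < l) (hm : 0 < m) (hmM : m ≤ M) (hku : 1 ≤ ku)
    (hC : 1 ≤ C) : ∃ c : ℝ, ∀ S U : ℝ, 1 ≤ S → 1 ≤ U →
    (∀ n : ℕ, U ≤ C * (C * (1 + Real.exp (M * n) + S * Real.exp (-(l * n)))) ^ ku *
      Real.exp (-(m * n)) + 1) →
    Real.log U ≤ c + (ku * M - m) / (l + M) * Real.log S := by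
  have hM : 0 < M := lt_of_lt_of_le hm hmM
  have hlM : 0 < l + M := by positivity
  have hk : 0 ≤ ku * M - m := by nlinarith
  set D : ℝ := C * (3 * C) ^ ku with hD
  have h3C : (1 : ℝ) ≤ 3 * C := by linarith
  have hD1 : 1 ≤ D := by
    have h1 : (1 : ℝ) ≤ (3 * C) ^ ku := Real.one_le_rpow h3C (by linarith)
    nlinarith
  refine ⟨Real.log (D + 1) + (ku * M - m), fun S U hS hU h => ?_⟩
  have hlogS : 0 ≤ Real.log S := Real.log_nonneg hS
  set n : ℕ := ⌈Real.log S / (l + M)⌉₊ with hn
  have hn1 : Real.log S / (l + M) ≤ n := Nat.le_ceil _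
  have hn2 : (n : ℝ) < Real.log S / (l + M) + 1 :=
    Nat.ceil_lt_add_one (div_nonneg hlogS hlM.le)
  have hn3 : Real.log S ≤ (l + M) * n := by
    rw [div_le_iff₀ hlM] at hn1
    linarith
  have hn0 : (0 : ℝ) ≤ n := Nat.cast_nonneg n
  have hS1 : S * Real.exp (-(l * n)) ≤ Real.exp (M * n) := by
    have h1 : S = Real.exp (Real.log S) := (Real.exp_log (by linarith)).symm
    rw [h1, ← Real.exp_add]
    apply Real.exp_le_exp.2
    linarith
  have he1 : 1 ≤ Real.exp (M * n) := Real.one_le_exp (by positivity)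
  have h4 : C * (1 + Real.exp (M * n) + S * Real.exp (-(l * n))) ≤ (3 * C) * Real.exp (M * n) := by
    have : 1 + Real.exp (M * n) + S * Real.exp (-(l * n)) ≤ 3 * Real.exp (M * n) := by linarith
    have hC0 : 0 ≤ C := by linarith
    nlinarith [mul_le_mul_of_nonneg_left this hC0]
  have h40 : 0 ≤ C * (1 + Real.exp (M * n) + S * Real.exp (-(l * n))) := by
    have h1 := Real.exp_pos (M * n)
    have h2 := Real.exp_pos (-(l * n))
    have hS0 : 0 < S := by linarith
    have hC0 : 0 < C := by linarith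
    positivity
  have h5 : (C * (1 + Real.exp (M * n) + S * Real.exp (-(l * n)))) ^ ku ≤
      (3 * C) ^ ku * Real.exp (ku * (M * n)) := by
    refine (Real.rpow_le_rpow h40 h4 (by linarith)).trans (le_of_eq ?_)
    rw [Real.mul_rpow (by linarith) (Real.exp_pos _).le, ← Real.exp_mul]
    congr 2
    ring
  have h6 : U ≤ (D + 1) * Real.exp ((ku * M - m) * n) := by
    have h7 := h n
    have h8 : 1 ≤ Real.exp ((ku * M - m) * n) := Real.one_le_exp (by positivity)
    have h9 : C * (C * (1 + Real.exp (M * n) + S * Real.exp (-(l * n)))) ^ ku *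
        Real.exp (-(m * n)) ≤ D * Real.exp ((ku * M - m) * n) := by
      calc C * (C * (1 + Real.exp (M * n) + S * Real.exp (-(l * n)))) ^ ku *
            Real.exp (-(m * n)) ≤ C * ((3 * C) ^ ku * Real.exp (ku * (M * n))) *
            Real.exp (-(m * n)) := by
            have hC0 : 0 ≤ C := by linarith
            gcongr
        _ = D * (Real.exp (ku * (M * n)) * Real.exp (-(m * n))) := by rw [hD]; ring
        _ = D * Real.exp ((ku * M - m) * n) := by
            rw [← Real.exp_add]
            congr 2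
            ring
    calc U ≤ D * Real.exp ((ku * M - m) * n) + 1 := by linarith
      _ ≤ D * Real.exp ((ku * M - m) * n) + Real.exp ((ku * M - m) * n) := by linarith
      _ = (D + 1) * Real.exp ((ku * M - m) * n) := by ring
  have h7 : Real.log U ≤ Real.log (D + 1) + (ku * M - m) * n := by
    calc Real.log U ≤ Real.log ((D + 1) * Real.exp ((ku * M - m) * n)) :=
          Real.log_le_log (by linarith) h6
      _ = Real.log (D + 1) + (ku * M - m) * n := by
          rw [Real.log_mul (by linarith) (Real.exp_pos _).ne', Real.log_exp]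
  have h8 : (ku * M - m) * n ≤ (ku * M - m) * (Real.log S / (l + M) + 1) :=
    mul_le_mul_of_nonneg_left hn2.le hk
  have h9 : (ku * M - m) * (Real.log S / (l + M) + 1) =
      (ku * M - m) + (ku * M - m) / (l + M) * Real.log S := by ring
  linarith

end NUM

open NUM in
theorem t_NUM : S_NUM := by
  intro l L m M ks ku C hl hlL hm hmM hks hku hlt hC
  obtain ⟨c1, h1⟩ := half l m M ku C hl hm hmM hku hC
  obtain ⟨c2, h2⟩ := half m l L ks C hm hl hlL hks hC
  have hM : 0 < M := lt_of_lt_of_le hm hmM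
  have hL : 0 < L := lt_of_lt_of_le hl hlL
  have hk1 : 0 ≤ ku * M - m := by nlinarith
  have hk2 : 0 ≤ ks * L - l := by nlinarith
  set tu : ℝ := (ku * M - m) / (l + M) with htu
  set ts : ℝ := (ks * L - l) / (m + L) with hts
  have htu0 : 0 ≤ tu := div_nonneg hk1 (by positivity)
  have hts0 : 0 ≤ ts := div_nonneg hk2 (by positivity)
  have htt : ts * tu < 1 := by
    rw [hts, htu, div_mul_div_comm, div_lt_one (by positivity)]
    linarith
  have h3 : 0 < 1 - ts * tu := by linarith
  refine ⟨max (Real.exp ((c2 + ts * c1) / (1 - ts * tu)))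
    (Real.exp (c1 + tu * ((c2 + ts * c1) / (1 - ts * tu)))), fun S U hS hU hUn hSn => ?_⟩
  have h4 := h1 S U hS hU hUn
  have h5 := h2 U S hU hS hSn
  have h6 : Real.log S ≤ (c2 + ts * c1) / (1 - ts * tu) := by
    rw [le_div_iff₀ h3]
    have h7 := mul_le_mul_of_nonneg_left h4 hts0
    nlinarith
  have h7 : Real.log U ≤ c1 + tu * ((c2 + ts * c1) / (1 - ts * tu)) :=
    h4.trans (by linarith [mul_le_mul_of_nonneg_left h6 htu0])
  constructor
  · refine le_trans ?_ (le_max_left _ _)
    exact (Real.log_le_iff_le_exp (by linarith)).1 h6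
  · refine le_trans ?_ (le_max_right _ _)
    exact (Real.log_le_iff_le_exp (by linarith)).1 h7

end Pool.Agent.K6.H72.PD
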