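import Pool.Agent.K6.H72.PD.Stm2

/-! # Piece NUM2 (helper50): the numerical lemma for one distorted foliation -/

set_option autoImplicit false

namespace Pool.Agent.K6.H72.PD

namespace NUM2

/-- choice of the ratio -/
lemma ratio (l L m M k : ℝ) (hl : 0 < l) (hlL : l ≤ L) (hm : 0 < m) (hk : 1 ≤ k)
    (h : k * L * (M - m) < l * (L + M)) :
    ∃ θ : ℝ, 0 < θ ∧ k * M < (l + k * m) * (1 + θ) ∧ (k * L - l) * θ < l := by
  set a : ℝ := l + k * m with ha
  set b : ℝ := k * L - l with hb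
  have ha0 : 0 < a := by positivity
  have hb0 : 0 ≤ b := by nlinarith
  have hab : b * (k * M - a) < l * a := by
    rw [ha, hb]
    nlinarith [mul_lt_mul_of_pos_left h (lt_of_lt_of_le one_pos hk)]
  obtain ⟨t, ht0, ht1, ht2⟩ : ∃ t : ℝ, 0 ≤ t ∧ k * M ≤ a * (1 + t) ∧ b * t < l := by
    rcases le_total (k * M) a with h1 | h1
    · exact ⟨0, le_rfl, by linarith, by linarith⟩
    · refine ⟨(k * M - a) / a, div_nonneg (by linarith) ha0.le, ?_, ?_⟩
      · rw [mul_add, mul_one, mul_div_cancel₀ _ ha0.ne']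
        linarith
      · rw [← mul_div_assoc, div_lt_iff₀ ha0]
        exact hab
  have hb1 : 0 < b + 1 := by linarith
  have hd : 0 < (l - b * t) / (b + 1) := div_pos (by linarith) hb1
  refine ⟨t + (l - b * t) / (b + 1), by linarith, ?_, ?_⟩
  · have := mul_pos ha0 hd
    nlinarith
  · have h2 : (b + 1) * ((l - b * t) / (b + 1)) = l - b * t := mul_div_cancel₀ _ hb1.ne'
    nlinarith

end NUM2

open NUM2 in
theorem t_NUM2 : S_NUM2 := by
  intro l L m M k C A B hl hlL hm hmM hk h hC hA hB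
  obtain ⟨θ, hθ, h1, h2⟩ := ratio l L m M k hl hlL hm hk h
  have hk0 : 0 < k := by linarith
  set b : ℝ := k * L - l with hb
  have hb0 : 0 ≤ b := by nlinarith
  set f : ℝ := (l + k * m) * (1 + θ) - k * M with hf
  set g : ℝ := l - b * θ with hg
  have hf0 : 0 < f := by linarith
  have hg0 : 0 < g := by linarith
  obtain ⟨η, hη, hηf, hηg, hηl⟩ : ∃ η : ℝ, 0 < η ∧ η ≤ f ∧ η ≤ g ∧ η ≤ l :=
    ⟨min f (min g l), lt_min hf0 (lt_min hg0 hl), min_le_left _ _,
      (min_le_right _ _).trans (min_le_left _ _), (min_le_right _ _).trans (min_le_right _ _)⟩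
  set D : ℝ := C * (C * (1 + A + B)) ^ k with hD
  have hCAB : 0 < C * (1 + A + B) := by positivity
  have hD0 : 0 < D := by positivity
  set n : ℕ := ⌈(b + Real.log D) / η⌉₊ with hn
  have hn1 : b + Real.log D ≤ η * n := by
    have := Nat.le_ceil ((b + Real.log D) / η)
    rw [div_le_iff₀ hη] at this
    linarith
  have hn0 : (0 : ℝ) ≤ n := Nat.cast_nonneg n
  set k₀ : ℕ := ⌈θ * n⌉₊ with hk₀
  have hk1 : θ * n ≤ k₀ := Nat.le_ceil _
  have hk2 : (k₀ : ℝ) < θ * n + 1 := Nat.ceil_lt_add_one (by positivity)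
  refine ⟨n, k₀, ?_⟩
  set z : ℝ := (l * (n + k₀ : ℕ) - η * n + b) / k with hz
  have hzk : k * z = l * (n + k₀ : ℕ) - η * n + b := mul_div_cancel₀ _ hk0.ne'
  have hcast : ((n + k₀ : ℕ) : ℝ) = n + k₀ := by push_cast; ring
  rw [hcast] at hzk ⊢
  have hk00 : (0 : ℝ) ≤ k₀ := Nat.cast_nonneg k₀
  -- the three exponents
  have e1 : 0 ≤ z := by
    have : 0 ≤ k * z := by
      rw [hzk]
      nlinarith [mul_nonneg hl.le hk00, mul_le_mul_of_nonneg_right hηl hn0]
    exact nonneg_of_mul_nonneg_right this hk0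
  have e2 : M * n + -(m * (n + k₀)) ≤ z := by
    have : k * (M * n + -(m * (n + k₀))) ≤ k * z := by
      rw [hzk]
      have hlk : 0 < l + k * m := by positivity
      nlinarith [mul_le_mul_of_nonneg_right hηf hn0, mul_le_mul_of_nonneg_left hk1 hlk.le]
    exact le_of_mul_le_mul_left this hk0
  have e3 : L * k₀ ≤ z := by
    have : k * (L * k₀) ≤ k * z := by
      rw [hzk]
      nlinarith [mul_le_mul_of_nonneg_right hηg hn0, mul_le_mul_of_nonneg_left hk2.le hb0]
    exact le_of_mul_le_mul_left this hk0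
  have hsum : 1 + B * Real.exp (M * n) * Real.exp (-(m * (n + k₀))) + A * Real.exp (L * k₀) ≤
      (1 + A + B) * Real.exp z := by
    rw [mul_assoc, ← Real.exp_add]
    have g1 : 1 ≤ Real.exp z := Real.one_le_exp e1
    have g2 := mul_le_mul_of_nonneg_left (Real.exp_le_exp.2 e2) hB
    have g3 := mul_le_mul_of_nonneg_left (Real.exp_le_exp.2 e3) hA
    linarith
  have hpos : 0 ≤ C * (1 + B * Real.exp (M * n) * Real.exp (-(m * (n + k₀))) +
      A * Real.exp (L * k₀)) := by
    have hC0 : 0 ≤ C := by linarith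
    positivity
  have hle : C * (1 + B * Real.exp (M * n) * Real.exp (-(m * (n + k₀))) +
      A * Real.exp (L * k₀)) ≤ C * (1 + A + B) * Real.exp z := by
    have := mul_le_mul_of_nonneg_left hsum (by linarith : (0 : ℝ) ≤ C)
    linarith
  calc C * (C * (1 + B * Real.exp (M * n) * Real.exp (-(m * (n + k₀))) +
        A * Real.exp (L * k₀))) ^ k ≤ C * (C * (1 + A + B) * Real.exp z) ^ k :=
        mul_le_mul_of_nonneg_left (Real.rpow_le_rpow hpos hle hk0.le) (by linarith)
    _ = D * Real.exp (k * z) := by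
        rw [Real.mul_rpow hCAB.le (Real.exp_pos _).le, ← Real.exp_mul, hD, mul_comm z k]
        ring
    _ = Real.exp (Real.log D + k * z) := by
        rw [Real.exp_add, Real.exp_log hD0]
    _ ≤ Real.exp (l * (n + k₀)) := by
        apply Real.exp_le_exp.2
        rw [hzk]
        linarith

end Pool.Agent.K6.H72.PD
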