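import Pool.Agent.K6.H72.PD.Stm

/-!
# Piece PTH: subdivision of a stable path
-/

set_option autoImplicit false

open Filter Topology Set Metric unitInterval

namespace Pool.Agent.K6.H72.PD

open Pool.Agent.N234.CP Pool.Agent.H789R2.AN Pool.Agent.H789R2.GP Pool.Agent.TH289.K
  Pool.Agent.H721R2

theorem t_PTH.{u} : S_PTH.{u} := by
  intro X _ _ g δ hδ τ
  have h1 := CompactSpace.uniformContinuous_of_continuous τ.continuous
  obtain ⟨η, hη, h2⟩ := Metric.uniformContinuous_iff.1 h1 δ hδ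
  obtain ⟨A, hA⟩ := exists_nat_gt (1 / η)
  have hA0 : (0 : ℝ) < A := lt_of_le_of_lt (by positivity) hA
  have hAη : 1 / (A : ℝ) < η := by
    rw [div_lt_iff₀ hA0]
    rwa [div_lt_iff₀ hη, mul_comm] at hA
  refine ⟨A, by exact_mod_cast (Nat.cast_pos.1 hA0), fun s s' => ?_⟩
  refine ⟨fun i => (τ (Set.projIcc (0 : ℝ) 1 zero_le_one
    ((s : ℝ) + ((s' : ℝ) - s) * (i / A)))).val, ?_, ?_, fun i _ => ?_⟩
  · show (τ (Set.projIcc (0 : ℝ) 1 zero_le_one
      ((s : ℝ) + ((s' : ℝ) - s) * (((0 : ℕ) : ℝ) / A)))).val = (τ s).val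
    rw [Nat.cast_zero, zero_div, mul_zero, add_zero, Set.projIcc_val]
  · show (τ (Set.projIcc (0 : ℝ) 1 zero_le_one
      ((s : ℝ) + ((s' : ℝ) - s) * (((A : ℕ) : ℝ) / A)))).val = (τ s').val
    rw [div_self hA0.ne', mul_one, add_sub_cancel, Set.projIcc_val]
  · refine (SM.dist_le _ _ hδ.le).1 (h2 ?_).le
    rw [Subtype.dist_eq, Real.dist_eq]
    refine lt_of_le_of_lt (Set.abs_projIcc_sub_projIcc zero_le_one) ?_
    have h3 : (s : ℝ) + ((s' : ℝ) - s) * ((i : ℕ) / A) -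
        ((s : ℝ) + ((s' : ℝ) - s) * (((i + 1 : ℕ) : ℝ) / A)) = -(((s' : ℝ) - s) * (1 / A)) := by
      push_cast
      ring
    rw [h3, abs_neg, abs_mul, abs_of_pos (show (0 : ℝ) < 1 / A by positivity)]
    have h4 : |(s' : ℝ) - s| ≤ 1 := by
      rw [abs_le]
      constructor <;> linarith [s.2.1, s.2.2, s'.2.1, s'.2.2]
    calc |(s' : ℝ) - s| * (1 / A) ≤ 1 * (1 / A) :=
          mul_le_mul_of_nonneg_right h4 (by positivity)
      _ = 1 / A := one_mul _
      _ < η := hAη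

end Pool.Agent.K6.H72.PD
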