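import Pool.Agent.K6.H72.PD.Stm
import Pool.Agent.H789R2.GP.LeafP

/-!
# Piece RLZ: stable chains are realized by paths that lift to chains in the cover
-/

set_option autoImplicit false

open Filter Topology Set Metric unitInterval

namespace Pool.Agent.K6.H72.PD

open Pool.Agent.N234.CP Pool.Agent.H789R2.AN Pool.Agent.H789R2.GP Pool.Agent.TH289.K
  Pool.Agent.H721R2

theorem t_RLZ.{u, v} : S_RLZ.{u, v} := by
  intro X Y _ _ _ g c h hX p hp ε hε
  obtain ⟨η, hη, h1⟩ := leaf_path h hX (ε / 3) (by positivity)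
  refine ⟨η, hη, fun N => ?_⟩
  induction N with
  | zero =>
    rintro x y ⟨z, hz0, hz1, -⟩ a ha
    have hxy : x = y := hz0.symm.trans hz1
    subst hxy
    refine ⟨ContinuousMap.const _ a, ContinuousMap.const _ ⟨x⟩, rfl, rfl, rfl, fun _ => ha,
      fun _ => a, rfl, rfl, fun i hi => absurd hi (Nat.not_lt_zero i)⟩
  | succ N ih =>
    rintro x y ⟨z, hz0, hz1, hz⟩ a ha
    obtain ⟨γ, υ, hγ0, hυ0, hυ1, hγυ, zc, hc0, hc1, hc⟩ :=
      ih x (z N) ⟨z, hz0, rfl, fun i hi => hz i (by omega)⟩ a ha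
    have hst : dist (⟨z N⟩ : SM g) ⟨y⟩ ≤ η := by
      refine (SM.dist_le _ _ hη.le).2 ?_
      rw [← hz1]
      exact hz N (Nat.lt_succ_self N)
    obtain ⟨w, hw0, hw1, hw⟩ := h1 ⟨z N⟩ ⟨y⟩ hst
    have hcont : Continuous fun t => (w t).val :=
      (SM.continuous_iter_val (g := g) 0).comp w.continuous
    let wX : C(I, X) := ⟨fun t => (w t).val, hcont⟩
    have hstart : wX 0 = p (γ 1) := by
      show (w 0).val = p (γ 1)
      rw [hw0, hγυ 1, hυ1]
    let l : C(I, Y) := hp.liftPath wX (γ 1) hstart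
    have hl0 : l 0 = γ 1 := hp.liftPath_zero wX (γ 1) hstart
    have hl : ∀ t, p (l t) = (w t).val := fun t =>
      congrFun (hp.liftPath_lifts wX (γ 1) hstart) t
    let P1 : Path (γ 0) (γ 1) := ⟨γ, rfl, rfl⟩
    let P2 : Path (γ 1) (l 1) := ⟨l, hl0, rfl⟩
    let Q1 : Path (υ 0) (υ 1) := ⟨υ, rfl, rfl⟩
    let Q2 : Path (υ 1) (w 1) := ⟨w, hw0.trans hυ1.symm, rfl⟩
    refine ⟨(P1.trans P2).toContinuousMap, (Q1.trans Q2).toContinuousMap, ?_, ?_, ?_, ?_, ?_⟩
    · show (P1.trans P2) 0 = a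
      rw [Path.source, hγ0]
    · show (Q1.trans Q2) 0 = _
      rw [Path.source, hυ0]
    · show (Q1.trans Q2) 1 = _
      rw [Path.target, hw1]
    · intro t
      show p ((P1.trans P2) t) = ((Q1.trans Q2) t).val
      rw [Path.trans_apply, Path.trans_apply]
      split_ifs with ht
      · exact hγυ _
      · exact hl _
    · show CoverChain p {q | dist q.1 q.2 < ε} (N + 1) ((P1.trans P2) 0) ((P1.trans P2) 1)
      rw [Path.source, Path.target]
      refine ⟨fun i => if i ≤ N then zc i else l 1, ?_, ?_, ?_⟩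
      · show (if 0 ≤ N then zc 0 else l 1) = γ 0
        rw [if_pos (Nat.zero_le N), hc0]
      · show (if N + 1 ≤ N then zc (N + 1) else l 1) = l 1
        rw [if_neg (by omega)]
      · intro i hi
        show NearIn p _ (if i ≤ N then zc i else l 1) (if i + 1 ≤ N then zc (i + 1) else l 1)
        rcases Nat.lt_or_ge i N with hiN | hiN
        · rw [if_pos hiN.le, if_pos (by omega)]
          exact hc i hiN
        · have hiN' : i = N := by omega
          subst hiN'
          rw [if_pos le_rfl, if_neg (by omega), hc1]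
          refine ⟨l, hl0, rfl, fun s t => ?_⟩
          show dist (p (l s)) (p (l t)) < ε
          rw [hl, hl]
          have h5 : dist (w s).val (w t).val ≤ dist (w s) (w t) := SM.dist_iter_le (w s) (w t) 0
          have h6 := dist_triangle_left (w s) (w t) (⟨z i⟩ : SM g)
          linarith [hw s, hw t]

end Pool.Agent.K6.H72.PD
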