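import Pool.Agent.N234.CP.Top
import Pool.Agent.Y330.H.B3
import Pool.Agent.TH289.K.Def

/-!
# Polynomially distorted foliations: definitions and statements of the pieces
-/

set_option autoImplicit false

open Filter Topology Set Metric unitInterval

namespace Pool.Agent.K6.H72.PD

open Pool.Agent.N234.CP Pool.Agent.H789R2.AN Pool.Agent.H789R2.GP Pool.Agent.TH289.K
  Pool.Agent.H721R2

/-- `y` and `y'` are joined by a path in `Y` whose image under `p` is `𝒰`-small. -/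
def NearIn {Y M : Type*} [TopologicalSpace Y] (p : Y → M) (𝒰 : Set (M × M)) (y y' : Y) : Prop :=
  ∃ δ : C(I, Y), δ 0 = y ∧ δ 1 = y' ∧ ∀ s t : I, (p (δ s), p (δ t)) ∈ 𝒰

/-- `y` and `y'` are joined by `N` consecutive paths in `Y` whose images under `p` are
`𝒰`-small. -/
def CoverChain {Y M : Type*} [TopologicalSpace Y] (p : Y → M) (𝒰 : Set (M × M)) (N : ℕ)
    (y y' : Y) : Prop :=
  ∃ z : ℕ → Y, z 0 = y ∧ z N = y' ∧ ∀ i < N, NearIn p 𝒰 (z i) (z (i + 1))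

/-- The stable leaves of `f` have, in the cover `p : Y → M`, at most polynomial distortion of
exponent `k`. -/
def PolyDistorted {Y M : Type*} [TopologicalSpace Y] [TopologicalSpace M] (f : M ≃ₜ M)
    (p : C(Y, M)) (k : ℝ) : Prop :=
  ∃ 𝒰₀ ∈ 𝓝ˢ (diagonal M), ∀ 𝒰 ∈ 𝓝ˢ (diagonal M), ∃ C : ℝ, ∀ γ : C(I, Y),
    StablePath f (p.comp γ) → ∀ N : ℕ, 1 ≤ N → CoverChain p 𝒰₀ N (γ 0) (γ 1) →
      ∃ N' : ℕ, (N' : ℝ) ≤ C * (N : ℝ) ^ k ∧ StableChain f 𝒰 N' (p (γ 0)) (p (γ 1))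

/-- numerical lemma -/
def S_NUM : Prop := ∀ (l L m M ks ku C : ℝ), 0 < l → l ≤ L → 0 < m → m ≤ M → 1 ≤ ks → 1 ≤ ku →
  (ku * M - m) * (ks * L - l) < (l + M) * (m + L) → 1 ≤ C →
  ∃ K : ℝ, ∀ S U : ℝ, 1 ≤ S → 1 ≤ U →
    (∀ n : ℕ, U ≤ C * (C * (1 + Real.exp (M * n) + S * Real.exp (-(l * n)))) ^ ku *
      Real.exp (-(m * n)) + 1) →
    (∀ n : ℕ, S ≤ C * (C * (1 + Real.exp (L * n) + U * Real.exp (-(m * n)))) ^ ks *
      Real.exp (-(l * n)) + 1) → S ≤ K ∧ U ≤ K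

/-- chains shrink -/
def S_GRP.{u} : Prop := ∀ (X : Type u) [MetricSpace X] (g : X ≃ₜ X) (δ l : ℝ), 0 < δ → 0 < l →
  LoRate g δ l → ∃ C : ℝ, 1 ≤ C ∧ ∀ (N n : ℕ) (x y : X), Steps g δ N x y →
    ∃ N' : ℕ, (N' : ℝ) ≤ C * N * Real.exp (-(l * n)) + 1 ∧ Steps g δ N' (g^[n] x) (g^[n] y)

/-- chains grow at most at the upper rate -/
def S_UPC.{u} : Prop := ∀ (X : Type u) [MetricSpace X] (g : X ≃ₜ X) (δ L : ℝ), 0 < δ →
  UpRate g δ L → ∃ C : ℝ, 1 ≤ C ∧ ∀ (N n : ℕ) (x y : X), Steps g δ N x y →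
    ∃ N' : ℕ, (N' : ℝ) ≤ C * N * Real.exp (L * n) ∧ Steps g δ N' (g.symm^[n] x) (g.symm^[n] y)

/-- points of a stable path are joined by a bounded number of steps -/
def S_PTH.{u} : Prop := ∀ (X : Type u) [MetricSpace X] [CompactSpace X] (g : X ≃ₜ X) (δ : ℝ), 0 < δ →
  ∀ τ : C(I, SM g), ∃ A : ℕ, 1 ≤ A ∧ ∀ s s' : I, Steps g δ A (τ s).val (τ s').val

/-- stable chains are realized by chains in the cover -/
def S_COV.{u, v} : Prop := ∀ (X : Type u) (Y : Type v) [MetricSpace X] [CompactSpace X] [TopologicalSpace Y]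
  (g : X ≃ₜ X) (c : ℝ), LP g c → ULC X → ∀ p : C(Y, X), IsCoveringMap p → ∀ ε > 0, ∃ δ₀ > 0,
    ∀ (γ : C(I, Y)) (υ : C(I, SM g)), (∀ t, p (γ t) = (υ t).val) → ∀ N : ℕ,
      Steps g δ₀ N (p (γ 0)) (p (γ 1)) →
      CoverChain p {q | dist q.1 q.2 < ε} N (γ 0) (γ 1)

/-- stable chains are realized by paths that lift to chains in the cover -/
def S_RLZ.{u, v} : Prop := ∀ (X : Type u) (Y : Type v) [MetricSpace X] [CompactSpace X]
  [TopologicalSpace Y] (g : X ≃ₜ X) (c : ℝ), LP g c → ULC X → ∀ p : C(Y, X), IsCoveringMap p →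
    ∀ ε > 0, ∃ δ₀ > 0, ∀ (N : ℕ) (x y : X), Steps g δ₀ N x y → ∀ a : Y, p a = x →
      ∃ (γ : C(I, Y)) (υ : C(I, SM g)), γ 0 = a ∧ υ 0 = ⟨x⟩ ∧ υ 1 = ⟨y⟩ ∧
        (∀ t, p (γ t) = (υ t).val) ∧ CoverChain p {q | dist q.1 q.2 < ε} N (γ 0) (γ 1)

/-- lifts of stable paths with the same end points have the same end points -/
def S_HLI.{u, v} : Prop := ∀ (X : Type u) (Y : Type v) [MetricSpace X] [CompactSpace X]
  [TopologicalSpace Y] (g : X ≃ₜ X) (c : ℝ), LP g c → ULC X → ∀ p : C(Y, X), IsCoveringMap p →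
    ∀ (γ γ' : C(I, Y)) (υ υ' : C(I, SM g)), (∀ t, p (γ t) = (υ t).val) →
      (∀ t, p (γ' t) = (υ' t).val) → γ 0 = γ' 0 → υ 1 = υ' 1 → γ 1 = γ' 1

end Pool.Agent.K6.H72.PD
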