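import Pool.Agent.K6.H72.PD.A2
import Pool.Agent.Y330.H.B3

/-!
# Only one distorted foliation: statements of the pieces
-/

set_option autoImplicit false

open Filter Topology Set Metric unitInterval

namespace Pool.Agent.K6.H72.PD

open Pool.Agent.N234.CP Pool.Agent.H789R2.AN Pool.Agent.H789R2.GP Pool.Agent.TH289.K
  Pool.Agent.H721R2 Pool.Agent.Y330.H Pool.Agent.TH289.L

/-- numerical lemma -/
def S_NUM2 : Prop := ∀ (l L m M k C A B : ℝ), 0 < l → l ≤ L → 0 < m → m ≤ M → 1 ≤ k →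
  k * L * (M - m) < l * (L + M) → 1 ≤ C → 0 ≤ A → 0 ≤ B →
  ∃ n k₀ : ℕ, C * (C * (1 + B * Real.exp (M * n) * Real.exp (-(m * (n + k₀ : ℕ))) +
    A * Real.exp (L * k₀))) ^ k ≤ Real.exp (l * (n + k₀ : ℕ))

/-- thin rectangles over small stable paths -/
def BoxP {X : Type*} [MetricSpace X] [CompactSpace X] (g : X ≃ₜ X) (c₁ e η : ℝ) : Prop :=
  ∀ (τ : C(I, SM g)) (w : X), (∀ s, SR g c₁ (τ 0).val (τ s).val) →
    SR g.symm η (τ 0).val w → ∃ R : I → I → X, Rc g R ∧ (∀ s, R s 0 = (τ s).val) ∧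
      R 0 1 = w ∧ ∀ s, SR g.symm e (R s 0) (R s 1)

/-- thin rectangles exist -/
def S_BOX.{u} : Prop := ∀ (X : Type u) [MetricSpace X] [CompactSpace X] (g : X ≃ₜ X) (c : ℝ),
  LP g c → ULC X → ∃ c₁ > 0, c₁ ≤ c ∧ ∀ e > 0, ∃ η > 0, BoxP g c₁ e η

/-- towers of thin rectangles -/
def S_TOW.{u} : Prop := ∀ (X : Type u) [MetricSpace X] [CompactSpace X] (g : X ≃ₜ X)
  (c c₁ e η : ℝ), LP g c → 0 < c₁ → 0 < e → BoxP g c₁ e η →
  ∀ (τ : C(I, SM g)) (J : ℕ) (x : X), Steps g.symm η J (τ 0).val x →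
    (∀ R : I → I → X, Rc g R → (∀ s, R s 0 = (τ s).val) →
      (∀ s, ∃ j ≤ J, Steps g.symm e j (R s 0) (R s 1)) → ∀ s, SR g c₁ (R 0 1) (R s 1)) →
    ∃ R : I → I → X, Rc g R ∧ (∀ s, R s 0 = (τ s).val) ∧ R 0 1 = x ∧
      ∀ s, ∃ j ≤ J, Steps g.symm e j (R s 0) (R s 1)

/-- rectangles with the same bottom and the same upper left corner have the same upper right
corner, if the stable leaves are distorted at most polynomially -/
def S_UNI.{u, v} : Prop := ∀ (X : Type u) (Y : Type v) [MetricSpace X] [CompactSpace X]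
  [TopologicalSpace Y] (g : X ≃ₜ X) (c : ℝ), LP g c → ULC X → ∀ p : C(Y, X), IsCoveringMap p →
    Function.Surjective p → ∀ (ε δ l k : ℝ), 0 < ε → 0 < δ → δ ≤ c → 0 < l → LoRate g δ l →
      Di p {q | dist q.1 q.2 < ε} g δ k → ∀ R R' : I → I → X, Rc g R → Rc g R' →
        (∀ s, R s 0 = R' s 0) → R 0 1 = R' 0 1 → R 1 1 = R' 1 1

end Pool.Agent.K6.H72.PD
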