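import Pool.Agent.K6.H72.PD.Stm2

/-!
# Towers of thin rectangles
-/

set_option autoImplicit false

open Filter Topology Set Metric unitInterval

namespace Pool.Agent.K6.H72.PD

open Pool.Agent.N234.CP Pool.Agent.H789R2.AN Pool.Agent.H789R2.GP Pool.Agent.TH289.K
  Pool.Agent.H721R2 Pool.Agent.Y330.H Pool.Agent.TH289.L

universe u

section

variable {X : Type u} [MetricSpace X] [CompactSpace X]

/-- the constant rectangle -/
theorem rc_const {g : X ≃ₜ X} {c : ℝ} (h : LP g c) (τ : C(I, SM g)) :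
    Rc g (fun s _ => (τ s).val) := by
  have hcont : Continuous fun s => (τ s).val := SM.val_continuous.comp τ.continuous
  refine ⟨hcont.comp continuous_fst, ?_, Con.refl' g.symm _⟩
  intro ε hε
  obtain ⟨n, hn⟩ := path_small h τ hε
  exact ⟨n, fun m hm q => hn m hm q.1 0⟩

theorem tow {g : X ≃ₜ X} {c c₁ e η : ℝ} (h : LP g c) (hb : BoxP g c₁ e η) (τ : C(I, SM g))
    (J : ℕ) (x : X) (hst : Steps g.symm η J (τ 0).val x)
    (hap : ∀ R : I → I → X, Rc g R → (∀ s, R s 0 = (τ s).val) →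
      (∀ s, ∃ j ≤ J, Steps g.symm e j (R s 0) (R s 1)) → ∀ s, SR g c₁ (R 0 1) (R s 1)) :
    ∃ R : I → I → X, Rc g R ∧ (∀ s, R s 0 = (τ s).val) ∧ R 0 1 = x ∧
      ∀ s, ∃ j ≤ J, Steps g.symm e j (R s 0) (R s 1) := by
  obtain ⟨z, z0, z1, hz⟩ := hst
  have key : ∀ i ≤ J, ∃ R : I → I → X, Rc g R ∧ (∀ s, R s 0 = (τ s).val) ∧ R 0 1 = z i ∧
      ∀ s, Steps g.symm e i (R s 0) (R s 1) := by
    intro i
    induction i with
    | zero =>
      intro _
      exact ⟨_, rc_const h τ, fun s => rfl, z0.symm, fun s =>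
        ⟨fun _ => (τ s).val, rfl, rfl, fun i hi => absurd hi (by omega)⟩⟩
    | succ i ih =>
      intro hi
      obtain ⟨R, r1, r2, r3, r4⟩ := ih (by omega)
      have hrow := hap R r1 r2 (fun s => ⟨i, by omega, r4 s⟩)
      obtain ⟨v, hv⟩ := r1.pathS 1
      obtain ⟨R', b1, b2, b3, b4⟩ := hb v (z (i + 1)) (fun s => by rw [hv, hv]; exact hrow s) (by
        rw [hv, r3]
        exact hz i (by omega))
      obtain ⟨R'', d1, d2, d3⟩ := r1.glue b1 (fun s => by rw [b2, hv])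
      refine ⟨R'', d1, fun s => by rw [d2, r2], by rw [d3, b3], fun s => ?_⟩
      rw [d2, d3]
      refine Steps.snoc (r4 s) ?_
      have := b4 s
      rwa [b2, hv] at this
  obtain ⟨R, r1, r2, r3, r4⟩ := key J le_rfl
  exact ⟨R, r1, r2, by rw [r3, z1], fun s => ⟨J, le_rfl, r4 s⟩⟩

end

theorem tow_all.{w} : S_TOW.{w} := fun _ _ _ _ _ _ _ _ h _ _ hb τ J x hst hap =>
  tow h hb τ J x hst hap

end Pool.Agent.K6.H72.PD
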