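import Pool.Agent.K6.H72.PD.Stm2
import Pool.Agent.K6.H72.PD.HLI

/-!
# Uniqueness of the upper right corner
-/

set_option autoImplicit false

open Filter Topology Set Metric unitInterval

namespace Pool.Agent.K6.H72.PD

open Pool.Agent.N234.CP Pool.Agent.H789R2.AN Pool.Agent.H789R2.GP Pool.Agent.TH289.K
  Pool.Agent.H721R2 Pool.Agent.Y330.H Pool.Agent.TH289.L

universe u v

namespace UNI

theorem chain_one {Y M : Type*} [TopologicalSpace Y] {p : Y → M} {𝒰 : Set (M × M)} {y y' : Y}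
    (h : NearIn p 𝒰 y y') : CoverChain p 𝒰 1 y y' := by
  refine ⟨fun i => if i = 0 then y else y', by simp, by simp, fun i hi => ?_⟩
  obtain rfl : i = 0 := by omega
  simpa using h

theorem lift_rect' {X : Type u} [MetricSpace X] {Y : Type v} [TopologicalSpace Y] {p : C(Y, X)}
    (hp : IsCoveringMap p) {T : I → I → X} (hT : Continuous fun q : I × I => T q.1 q.2) (e₀ : Y)
    (he : p e₀ = T 0 0) : ∃ F : C(I × I, Y), F (0, 0) = e₀ ∧ ∀ s t, p (F (s, t)) = T s t := by
  have hI : ContractibleSpace I :=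
    Convex.contractibleSpace (convex_Icc (0 : ℝ) 1) ⟨0, by simp⟩
  have hII : ContractibleSpace (I × I) := inferInstance
  have hL : LocallyPathConnectedSpace I := (convex_Icc (0 : ℝ) 1).locallyPathConnectedSpace
  let f : C(I × I, X) := ⟨fun q => T q.1 q.2, hT⟩
  obtain ⟨F, ⟨hF0, hF⟩, -⟩ := hp.existsUnique_continuousMap_lifts f ((0 : I), (0 : I)) e₀ he
  exact ⟨F, hF0, fun s t => congrFun hF (s, t)⟩

/-- concatenation of two stable paths in the cover -/
theorem concat {X : Type u} [MetricSpace X] [CompactSpace X] {Y : Type v} [TopologicalSpace Y]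
    {p : C(Y, X)} {g : X ≃ₜ X} (γ γ' : C(I, Y)) (υ υ' : C(I, SM g))
    (hγ : ∀ t, p (γ t) = (υ t).val) (hγ' : ∀ t, p (γ' t) = (υ' t).val) (h : γ 1 = γ' 0) :
    ∃ (κ : C(I, Y)) (ω : C(I, SM g)), (∀ t, p (κ t) = (ω t).val) ∧ κ 0 = γ 0 ∧ κ 1 = γ' 1 := by
  have h' : υ 1 = υ' 0 := by
    apply SM.ext
    rw [← hγ, ← hγ', h]
  let P1 : Path (γ 0) (γ 1) := ⟨γ, rfl, rfl⟩
  let P2 : Path (γ 1) (γ' 1) := ⟨γ', h.symm, rfl⟩
  let Q1 : Path (υ 0) (υ 1) := ⟨υ, rfl, rfl⟩
  let Q2 : Path (υ 1) (υ' 1) := ⟨υ', h'.symm, rfl⟩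
  refine ⟨(P1.trans P2).toContinuousMap, (Q1.trans Q2).toContinuousMap, fun t => ?_, ?_, ?_⟩
  · show p ((P1.trans P2) t) = ((Q1.trans Q2) t).val
    rw [Path.trans_apply, Path.trans_apply]
    split_ifs with h1
    · exact hγ _
    · exact hγ' _
  · exact (P1.trans P2).source
  · exact (P1.trans P2).target

end UNI

theorem t_UNI : S_UNI.{u, v} := by
  intro X Y _ _ _ g c h hX p hp hsur ε δ l k hε hδ hδc hl hL hD R R' hR hR' h0 h1
  have key : ∀ ρ > 0, dist (R 1 1) (R' 1 1) ≤ ρ := by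
    intro ρ hρ
    obtain ⟨Cf, hCf, hfine⟩ := LoRate.fine h hl hδc hL hρ
    obtain ⟨CD, hCD, hDi⟩ := hD
    obtain ⟨n1, hn1⟩ := hR.cu (ε / 3) (by positivity)
    obtain ⟨n2, hn2⟩ := hR'.cu (ε / 3) (by positivity)
    obtain ⟨n3, hn3⟩ : ∃ n3 : ℕ, ∀ n ≥ n3, Cf * (CD * (2 : ℝ) ^ k) ≤ Real.exp (l * n) := by
      have ht : Tendsto (fun n : ℕ => Real.exp (l * n)) atTop atTop :=
        Real.tendsto_exp_atTop.comp (tendsto_natCast_atTop_atTop.const_mul_atTop hl)
      exact eventually_atTop.1 (ht.eventually_ge_atTop _)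
    set n := max n1 (max n2 n3) with hn
    have hTn := hR.iter' n
    have hTn' := hR'.iter' n
    obtain ⟨e₀, he⟩ := hsur (g.symm^[n] (R 0 0))
    obtain ⟨F, hF0, hF⟩ := UNI.lift_rect' (T := fun s t => g.symm^[n] (R s t)) hp
      hTn.cont e₀ he
    obtain ⟨F', hF0', hF'⟩ := UNI.lift_rect' (T := fun s t => g.symm^[n] (R' s t)) hp
      hTn'.cont e₀ (by rw [he, h0 0])
    obtain ⟨v1, hv1⟩ := hTn.pathS 1
    obtain ⟨v1', hv1'⟩ := hTn'.pathS 1
    obtain ⟨w0, hw0⟩ := hTn.pathU 0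
    obtain ⟨w0', hw0'⟩ := hTn'.pathU 0
    -- bottoms
    have hbot : ∀ s, F (s, 0) = F' (s, 0) := by
      have h2 := hp.eq_of_comp_eq (g₁ := fun s : I => F (s, 0)) (g₂ := fun s : I => F' (s, 0))
        (by fun_prop) (by fun_prop) (by
          funext s
          show p (F (s, 0)) = p (F' (s, 0))
          rw [hF, hF', h0]) 0 (by
          show F (0, 0) = F' (0, 0)
          rw [hF0, hF0'])
      intro s
      exact congrFun h2 s
    -- upper left corners
    have hcor : F (0, 1) = F' (0, 1) := by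
      refine t_HLI X Y g.symm c h.symm hX p hp ⟨fun t => F (0, t), by fun_prop⟩
        ⟨fun t => F' (0, t), by fun_prop⟩ w0 w0' (fun t => ?_) (fun t => ?_) ?_ ?_
      · rw [hw0]; exact hF 0 t
      · rw [hw0']; exact hF' 0 t
      · show F (0, 0) = F' (0, 0)
        rw [hF0, hF0']
      · apply SM.ext
        rw [hw0, hw0', h1]
    -- the stable path
    obtain ⟨κ, ω, k1, k2, k3⟩ := UNI.concat (p := p) (g := g)
      (⟨fun s => F (σ s, 1), by fun_prop⟩ : C(I, Y)) (⟨fun s => F' (s, 1), by fun_prop⟩ : C(I, Y))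
      (⟨fun s => v1 (σ s), by fun_prop⟩ : C(I, SM g)) v1'
      (fun s => by
        show p (F (σ s, 1)) = (v1 (σ s)).val
        rw [hv1, hF])
      (fun s => by
        show p (F' (s, 1)) = (v1' s).val
        rw [hv1', hF'])
      (by
        show F (σ 1, 1) = F' (0, 1)
        rw [unitInterval.symm_one, hcor])
    have k2' : κ 0 = F (1, 1) := by
      rw [k2]
      show F (σ 0, 1) = _
      rw [unitInterval.symm_zero]
    have k3' : κ 1 = F' (1, 1) := k3
    -- the columns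
    have near : ∀ (G : C(I × I, Y)) (T : I → I → X), (∀ s t, p (G (s, t)) = g.symm^[n] (T s t)) →
        (∀ i : I × I, dist (g.symm^[n] (T i.1 0)) (g.symm^[n] (T i.1 i.2)) ≤ ε / 3) →
        CoverChain p {q | dist q.1 q.2 < ε} 1 (G (1, 0)) (G (1, 1)) := by
      intro G T hG hT
      apply UNI.chain_one
      refine ⟨⟨fun t => G (1, t), by fun_prop⟩, rfl, rfl, fun s t => ?_⟩
      show dist (p (G (1, s))) (p (G (1, t))) < ε
      rw [hG, hG]
      have a1 := hT (1, s)
      have a2 := hT (1, t)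
      have a3 := dist_triangle_left (g.symm^[n] (T 1 s)) (g.symm^[n] (T 1 t))
        (g.symm^[n] (T 1 0))
      simp only at a1 a2
      linarith
    have c1 := near F R hF (fun i => hn1 n (by omega) i)
    have c2 := near F' R' hF' (fun i => hn2 n (by omega) i)
    have c3 : CoverChain p {q | dist q.1 q.2 < ε} 2 (κ 0) (κ 1) := by
      rw [k2', k3']
      have := c1.symm'
      rw [hbot 1] at this
      exact this.trans' c2
    obtain ⟨N', hN', hs⟩ := hDi κ ω k1 2 (by omega) c3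
    have hs' : Steps g δ N' (g.symm^[n] (R 1 1)) (g.symm^[n] (R' 1 1)) := by
      rw [k2', k3', hF, hF'] at hs
      exact hs
    have hN2 : Cf * N' ≤ Real.exp (l * n) := by
      refine le_trans ?_ (hn3 n (by omega))
      have : (N' : ℝ) ≤ CD * (2 : ℝ) ^ k := by
        exact_mod_cast hN'
      exact mul_le_mul_of_nonneg_left this (by linarith)
    have h5 := hfine N' n _ _ hN2 hs' 0
    rw [iterR, iterR] at h5
    exact h5
  exact dist_le_zero.1 (le_of_forall_pos_le_add fun ρ hρ => by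
    have := key ρ hρ
    linarith)

end Pool.Agent.K6.H72.PD
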