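import Pool.Agent.K6.H72.PD.Stm

set_option autoImplicit false

/-!
# Chains of steps grow at most at the upper rate
-/

open Filter Topology Set Metric unitInterval

namespace Pool.Agent.K6.H72.PD

open Pool.Agent.N234.CP Pool.Agent.H789R2.AN Pool.Agent.H789R2.GP Pool.Agent.TH289.K
  Pool.Agent.H721R2

namespace UPC

theorem trans {X : Type*} [MetricSpace X] {g : X ≃ₜ X} {δ : ℝ} {N N' : ℕ} {x y w : X}
    (h : Steps g δ N x y) (h' : Steps g δ N' y w) : Steps g δ (N + N') x w := by
  obtain ⟨z, hz0, hzN, hz⟩ := h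
  obtain ⟨z', hz0', hzN', hz'⟩ := h'
  refine ⟨fun i => if i ≤ N then z i else z' (i - N), ?_, ?_, ?_⟩
  · simpa using hz0
  · rcases Nat.eq_zero_or_pos N' with h0 | h0
    · subst h0
      simp only [add_zero, le_refl, if_true]
      rw [hzN, ← hz0', hzN']
    · have : ¬ (N + N' ≤ N) := by omega
      simp only [this, if_false]
      rw [Nat.add_sub_cancel_left, hzN']
  · intro i hi
    by_cases h1 : i + 1 ≤ N
    · have h2 : i ≤ N := by omega
      simp only [h1, h2, if_true]
      exact hz i (by omega)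
    · by_cases h2 : i ≤ N
      · have h3 : i = N := by omega
        subst h3
        simp only [le_refl, if_true, h1, if_false]
        have h4 : i + 1 - i = 0 + 1 := by omega
        rw [h4, hzN, ← hz0']
        exact hz' 0 (by omega)
      · simp only [h1, h2, if_false]
        have h4 : i + 1 - N = (i - N) + 1 := by omega
        rw [h4]
        exact hz' (i - N) (by omega)

end UPC

theorem t_UPC.{u} : S_UPC.{u} := by
  intro X _ g δ L hδ hU
  obtain ⟨C, hC⟩ := hU
  refine ⟨max 1 C, le_max_left _ _, ?_⟩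
  intro N n
  induction N with
  | zero =>
    intro x y h
    obtain ⟨z, hz0, hzN, _⟩ := h
    refine ⟨0, by simp, fun _ => g.symm^[n] x, rfl, ?_, fun i hi => absurd hi (by omega)⟩
    rw [← hz0, hzN]
  | succ N ih =>
    intro x y h
    obtain ⟨z, hz0, hzN, hz⟩ := h
    obtain ⟨N₁, hN₁, hS₁⟩ := ih x (z N) ⟨z, hz0, rfl, fun i hi => hz i (by omega)⟩
    obtain ⟨N₂, hN₂, hS₂⟩ := hC (z N) (z (N + 1)) (hz N (by omega)) n
    refine ⟨N₁ + N₂, ?_, ?_⟩
    · have hle : C * Real.exp (L * n) ≤ max 1 C * Real.exp (L * n) :=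
        mul_le_mul_of_nonneg_right (le_max_right _ _) (Real.exp_pos _).le
      push_cast
      have : max 1 C * (N + 1 : ℝ) * Real.exp (L * n) =
          max 1 C * N * Real.exp (L * n) + max 1 C * Real.exp (L * n) := by ring
      rw [this]
      linarith
    · rw [hzN] at hS₂
      exact UPC.trans hS₁ hS₂

end Pool.Agent.K6.H72.PD
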